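import Mathlib

set_option autoImplicit false

/-! A finite dimensional space of polynomials has bounded orders at a generic point. -/

namespace Pool.Agent.CMP

open Matrix

theorem exists_stable (f : ℕ → ℕ) (D : ℕ) (hD : ∀ j, f j ≤ D)
    (hmono : ∀ j, f j ≤ f (j + 1)) : ∃ j ≤ D, f (j + 1) = f j := by
  by_contra h
  push Not at h
  have key : ∀ j, j ≤ D + 1 → j ≤ f j := by
    intro j
    induction j with
    | zero => intro _; exact Nat.zero_le _
    | succ j ih =>
      intro hj
      have h1 := ih (by omega)
      have h2 := h j (by omega)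
      have h3 := hmono j
      omega
  have := key (D + 1) le_rfl
  have := hD (D + 1)
  omega

/-- If a bordered minor vanishes, the border is a combination of the rows. -/
theorem bordered {R : Type*} [CommRing R] [IsDomain R] {s : ℕ} (A : Matrix (Fin s) (Fin s) R)
    (hA : A.det ≠ 0) (u v : Fin s → R) (x : R)
    (h : (Matrix.fromBlocks A (Matrix.of fun i (_ : Unit) => u i)
      (Matrix.of fun (_ : Unit) i => v i) (Matrix.of fun (_ : Unit) (_ : Unit) => x)).det = 0) :
    A.det * x = ∑ i, (∑ c, v c * A.adjugate c i) * u i := by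
  let K := FractionRing R
  let φ : R →+* K := algebraMap R K
  have hφ : Function.Injective φ := IsFractionRing.injective R K
  have hA' : IsUnit (A.map φ).det := by
    rw [← RingHom.mapMatrix_apply, ← RingHom.map_det]
    exact isUnit_iff_ne_zero.mpr fun h0 => hA (hφ (by rw [h0, map_zero]))
  have : Invertible (A.map φ) := Matrix.invertibleOfIsUnitDet _ hA'
  have h1 := congrArg φ h
  rw [map_zero, RingHom.map_det, RingHom.mapMatrix_apply, Matrix.fromBlocks_map,
    Matrix.det_fromBlocks₁₁] at h1
  have h2 := (mul_eq_zero.mp h1).resolve_left hA'.ne_zero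
  rw [Matrix.det_unique] at h2
  simp only [Matrix.sub_apply, Matrix.map_apply, Matrix.of_apply, Matrix.mul_apply,
    sub_eq_zero] at h2
  apply hφ
  rw [map_mul, h2, RingHom.map_det, RingHom.mapMatrix_apply]
  rw [Finset.mul_sum, map_sum]
  apply Finset.sum_congr rfl
  intro i _
  rw [map_mul, map_sum, ← mul_assoc, Finset.mul_sum]
  congr 1
  apply Finset.sum_congr rfl
  intro c _
  rw [map_mul]
  have h3 : (A.map φ).det * (⅟(A.map φ)) c i = φ (A.adjugate c i) := by
    have h4 : (A.map φ).det • ⅟(A.map φ) = (A.map φ).adjugate := by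
      rw [Matrix.invOf_eq_nonsing_inv, Matrix.inv_def, smul_smul,
        Ring.mul_inverse_cancel _ hA', one_smul]
    have h5 := congrFun (congrFun h4 c) i
    rw [Matrix.smul_apply, smul_eq_mul] at h5
    rw [h5, ← RingHom.mapMatrix_apply, ← RingHom.map_adjugate]
    rfl
  rw [← h3]
  ring

/-- A maximal nonvanishing minor at a stable level. -/
theorem exists_level {R : Type*} [CommRing R] [IsDomain R] {ι : Type*} {D : ℕ}
    (r : ι → Fin D → R) (lev : ι → ℕ) :
    ∃ j ≤ D, ∃ (s : ℕ) (L : Fin s → ι) (e : Fin s → Fin D), (∀ i, lev (L i) ≤ j) ∧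
      (Matrix.of fun i c => r (L i) (e c)).det ≠ 0 ∧
      ∀ l, lev l ≤ j + 1 → ∀ e', (Matrix.of fun i c => r (L i) (e c)).det * r l e' =
        ∑ i, (∑ c, r l (e c) * (Matrix.of fun i c => r (L i) (e c)).adjugate c i) *
          r (L i) e' := by
  classical
  let Q : ℕ → ℕ → Prop := fun j s => ∃ (L : Fin s → ι) (e : Fin s → Fin D),
    (∀ i, lev (L i) ≤ j) ∧ (Matrix.of fun i c => r (L i) (e c)).det ≠ 0
  have hQ0 : ∀ j, Q j 0 := fun j => ⟨Fin.elim0, Fin.elim0, fun i => i.elim0, by simp⟩
  have hQD : ∀ j s, Q j s → s ≤ D := by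
    intro j s ⟨L, e, _, hdet⟩
    have hinj : Function.Injective e := by
      intro c c' hcc
      by_contra hne
      exact hdet (Matrix.det_zero_of_column_eq hne fun i => by
        rw [Matrix.of_apply, Matrix.of_apply, hcc])
    simpa using Fintype.card_le_of_injective e hinj
  obtain ⟨j, hjD, hj⟩ := exists_stable (fun j => Nat.findGreatest (Q j) D) D
    (fun j => Nat.findGreatest_le D) (fun j => by
      apply Nat.findGreatest_mono_left
      intro s ⟨L, e, h1, h2⟩
      exact ⟨L, e, fun i => (h1 i).trans (Nat.le_succ j), h2⟩)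
  obtain ⟨L, e, hL, hdet⟩ : Q j (Nat.findGreatest (Q j) D) :=
    Nat.findGreatest_spec (m := 0) (Nat.zero_le _) (hQ0 j)
  refine ⟨j, hjD, _, L, e, hL, hdet, ?_⟩
  intro l hl e'
  apply bordered _ hdet (fun i => r (L i) e') (fun c => r l (e c)) (r l e')
  by_contra hne
  have hQs : Q (j + 1) (Nat.findGreatest (Q j) D + 1) := by
    let ε : Fin (Nat.findGreatest (Q j) D + 1) ≃ Fin (Nat.findGreatest (Q j) D) ⊕ Unit :=
      finSumFinEquiv.symm.trans (Equiv.sumCongr (Equiv.refl _) (Equiv.equivPUnit _))
    refine ⟨fun i => Sum.elim L (fun _ => l) (ε i), fun i => Sum.elim e (fun _ => e') (ε i),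
      ?_, ?_⟩
    · intro i
      beta_reduce
      generalize ε i = x
      rcases x with i' | i'
      · exact (hL i').trans (Nat.le_succ j)
      · exact hl
    · intro h0
      apply hne
      rw [← h0, ← Matrix.det_submatrix_equiv_self ε]
      congr 1
      ext a b
      rw [Matrix.submatrix_apply, Matrix.of_apply]
      beta_reduce
      generalize ε a = x
      generalize ε b = y
      rcases x with a' | a' <;> rcases y with b' | b' <;> rfl
  have h1 : Nat.findGreatest (Q j) D + 1 ≤ Nat.findGreatest (Q (j + 1)) D :=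
    Nat.le_findGreatest (hQD _ _ hQs) hQs
  have h2 : Nat.findGreatest (Q (j + 1)) D = Nat.findGreatest (Q j) D := hj
  omega

section jet

variable {F : Type*} [Field F] {σ : Type*}

/-- Iterated partial derivatives in directions of `S`. -/
noncomputable def dL {S : Set σ} : List S → MvPolynomial σ F → MvPolynomial σ F
  | [], p => p
  | i :: L, p => MvPolynomial.pderiv (i : σ) (dL L p)

theorem dL_cons {S : Set σ} (i : S) (L : List S) (p : MvPolynomial σ F) :
    dL (i :: L) p = MvPolynomial.pderiv (i : σ) (dL L p) := rfl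

theorem pderiv_mem {A : Set σ} (i : σ) {p : MvPolynomial σ F}
    (hp : p ∈ MvPolynomial.supported F A) :
    MvPolynomial.pderiv i p ∈ MvPolynomial.supported F A := by
  classical
  rw [MvPolynomial.supported_eq_adjoin_X] at hp ⊢
  induction hp using Algebra.adjoin_induction with
  | mem x hx =>
    obtain ⟨a, _, rfl⟩ := hx
    rw [MvPolynomial.pderiv_X]
    by_cases h : i = a
    · subst h
      rw [Pi.single_eq_same]
      exact one_mem _
    · rw [Pi.single_eq_of_ne (Ne.symm h)]
      exact zero_mem _
  | algebraMap r =>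
    rw [MvPolynomial.algebraMap_eq, MvPolynomial.pderiv_C]
    exact zero_mem _
  | add x y _ _ h1 h2 =>
    rw [map_add]
    exact add_mem h1 h2
  | mul x y hx hy h1 h2 =>
    rw [MvPolynomial.pderiv_mul]
    exact add_mem (mul_mem h1 hy) (mul_mem hx h2)

theorem dL_mem {A : Set σ} {S : Set σ} (L : List S) {p : MvPolynomial σ F}
    (hp : p ∈ MvPolynomial.supported F A) : dL L p ∈ MvPolynomial.supported F A := by
  induction L with
  | nil => exact hp
  | cons i L ih => exact pderiv_mem _ ih

/-- A finite dimensional space of polynomials has bounded orders at a generic point. -/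
theorem jet (S : Set σ) (D : ℕ) (β : Fin D → MvPolynomial σ F) (A : Set σ)
    (hA : ∀ e, β e ∈ MvPolynomial.supported F A) :
    ∃ W : MvPolynomial σ F, W ≠ 0 ∧ W ∈ MvPolynomial.supported F A ∧
      ∀ (b : σ → F) (α : Fin D → F), MvPolynomial.eval b W ≠ 0 →
        (∀ L : List S, L.length ≤ D → ∑ e, α e * MvPolynomial.eval b (dL L (β e)) = 0) →
        ∀ L : List S, ∑ e, α e * MvPolynomial.eval b (dL L (β e)) = 0 := by
  classical
  obtain ⟨j, hj, s, Ls, es, hlev, hdet, hrel⟩ := exists_level
    (fun (L : List S) (e : Fin D) => dL L (β e)) List.length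
  obtain ⟨A0, hA0⟩ : ∃ A0 : Matrix (Fin s) (Fin s) (MvPolynomial σ F),
    A0 = Matrix.of fun i c => dL (Ls i) (β (es c)) := ⟨_, rfl⟩
  rw [← hA0] at hdet hrel
  have hent : ∀ i c, A0 i c ∈ MvPolynomial.supported F A := by
    intro i c
    rw [hA0]
    exact dL_mem _ (hA _)
  refine ⟨A0.det, hdet, ?_, ?_⟩
  · rw [Matrix.det_apply]
    refine sum_mem fun π _ => ?_
    rw [Units.smul_def]
    exact zsmul_mem (prod_mem fun i _ => hent _ _) _
  · intro b α hW h0
    -- the vectors which are dependent on the chosen rows after localisation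
    let Dep : (Fin D → MvPolynomial σ F) → Prop := fun x => ∃ (k : ℕ)
      (lam : Fin s → MvPolynomial σ F), ∀ e, A0.det ^ k * x e = ∑ i, lam i * dL (Ls i) (β e)
    have hadd : ∀ x y, Dep x → Dep y → Dep (fun e => x e + y e) := by
      rintro x y ⟨k, lam, h⟩ ⟨k', lam', h'⟩
      refine ⟨k + k', fun i => A0.det ^ k' * lam i + A0.det ^ k * lam' i, fun e => ?_⟩
      have e1 : A0.det ^ (k + k') * (x e + y e) = A0.det ^ k' * (A0.det ^ k * x e) +
          A0.det ^ k * (A0.det ^ k' * y e) := by ring
      rw [e1, h e, h' e, Finset.mul_sum, Finset.mul_sum, ← Finset.sum_add_distrib]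
      exact Finset.sum_congr rfl fun i _ => by ring
    have hmul : ∀ (c : MvPolynomial σ F) x, Dep x → Dep (fun e => c * x e) := by
      rintro c x ⟨k, lam, h⟩
      refine ⟨k, fun i => c * lam i, fun e => ?_⟩
      have e1 : A0.det ^ k * (c * x e) = c * (A0.det ^ k * x e) := by ring
      rw [e1, h e, Finset.mul_sum]
      exact Finset.sum_congr rfl fun i _ => by ring
    have hdiv : ∀ (k : ℕ) x, Dep (fun e => A0.det ^ k * x e) → Dep x := by
      rintro k x ⟨k', lam, h⟩
      refine ⟨k' + k, lam, fun e => ?_⟩
      rw [← h e, pow_add]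
      ring
    have hsum : ∀ {ι : Type} (t : Finset ι) (x : ι → Fin D → MvPolynomial σ F),
        (∀ i ∈ t, Dep (x i)) → Dep (fun e => ∑ i ∈ t, x i e) := by
      intro ι t x
      induction t using Finset.induction_on with
      | empty =>
        intro _
        exact ⟨0, 0, fun e => by simp⟩
      | insert a t ha ih =>
        intro hx
        have := hadd _ _ (hx a (Finset.mem_insert_self a t))
          (ih fun i hi => hx i (Finset.mem_insert_of_mem hi))
        simpa only [Finset.sum_insert ha] using this
    have hlow : ∀ L : List S, L.length ≤ j + 1 → Dep (fun e => dL L (β e)) := by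
      intro L hL
      refine ⟨1, fun i => ∑ c, dL L (β (es c)) * A0.adjugate c i, fun e => ?_⟩
      rw [pow_one]
      exact hrel L hL e
    have hall : ∀ L : List S, Dep (fun e => dL L (β e)) := by
      intro L
      induction L with
      | nil => exact hlow [] (Nat.zero_le _)
      | cons i L ih =>
        obtain ⟨k, lam, h⟩ := ih
        apply hdiv k
        have h1 : ∀ e, A0.det ^ k * dL (i :: L) (β e) =
            (∑ l, MvPolynomial.pderiv (i : σ) (lam l) * dL (Ls l) (β e) +
              ∑ l, lam l * dL (i :: Ls l) (β e)) +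
              (- MvPolynomial.pderiv (i : σ) (A0.det ^ k)) * dL L (β e) := by
          intro e
          have h2 := congrArg (MvPolynomial.pderiv (i : σ)) (h e)
          rw [MvPolynomial.pderiv_mul, map_sum] at h2
          have h3 : ∀ l ∈ (Finset.univ : Finset (Fin s)), MvPolynomial.pderiv (i : σ)
              (lam l * dL (Ls l) (β e)) = MvPolynomial.pderiv (i : σ) (lam l) * dL (Ls l) (β e) +
              lam l * dL (i :: Ls l) (β e) := by
            intro l _
            rw [MvPolynomial.pderiv_mul, dL_cons]
          rw [Finset.sum_congr rfl h3, Finset.sum_add_distrib] at h2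
          rw [← h2, dL_cons]
          ring
        have h4 := hadd _ _ (hadd _ _
          (hsum Finset.univ (fun l e => MvPolynomial.pderiv (i : σ) (lam l) * dL (Ls l) (β e))
            fun l _ => hmul _ _ (hlow (Ls l) ((hlev l).trans (Nat.le_succ j))))
          (hsum Finset.univ (fun l e => lam l * dL (i :: Ls l) (β e))
            fun l _ => hmul _ _ (hlow (i :: Ls l) (Nat.succ_le_succ (hlev l)))))
          (hmul (- MvPolynomial.pderiv (i : σ) (A0.det ^ k)) _ ⟨k, lam, h⟩)
        have h5 : (fun e => A0.det ^ k * dL (i :: L) (β e)) = fun e =>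
            (∑ l, MvPolynomial.pderiv (i : σ) (lam l) * dL (Ls l) (β e) +
              ∑ l, lam l * dL (i :: Ls l) (β e)) +
              (- MvPolynomial.pderiv (i : σ) (A0.det ^ k)) * dL L (β e) := funext h1
        rw [h5]
        exact h4
    intro L
    obtain ⟨k, lam, h⟩ := hall L
    have h1 : MvPolynomial.eval b A0.det ^ k * ∑ e, α e * MvPolynomial.eval b (dL L (β e)) = 0 := by
      rw [Finset.mul_sum]
      have h2 : ∀ e ∈ (Finset.univ : Finset (Fin D)), MvPolynomial.eval b A0.det ^ k *
          (α e * MvPolynomial.eval b (dL L (β e))) =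
          ∑ i, MvPolynomial.eval b (lam i) * (α e * MvPolynomial.eval b (dL (Ls i) (β e))) := by
        intro e _
        have h3 := congrArg (MvPolynomial.eval b) (h e)
        rw [map_mul, map_pow, map_sum] at h3
        have h4 : MvPolynomial.eval b A0.det ^ k *
            (α e * MvPolynomial.eval b (dL L (β e))) = α e * (MvPolynomial.eval b A0.det ^ k *
              MvPolynomial.eval b (dL L (β e))) := by ring
        rw [h4, h3, Finset.mul_sum]
        apply Finset.sum_congr rfl
        intro i _
        rw [map_mul]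
        ring
      rw [Finset.sum_congr rfl h2, Finset.sum_comm]
      apply Finset.sum_eq_zero
      intro i _
      rw [← Finset.mul_sum, h0 (Ls i) ((hlev i).trans hj), mul_zero]
    exact (mul_eq_zero.mp h1).resolve_left (pow_ne_zero _ hW)

end jet

end Pool.Agent.CMP
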