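import Mathlib

set_option autoImplicit false

/-! Polynomials near a point: lines, lowest homogeneous parts, composition with a map whose
Jacobian is onto. -/

namespace Pool.Agent.CMP

open Polynomial

variable {F : Type*} [Field F] {σ τ : Type*}

/-- The polynomial `p (X + b)`. -/
noncomputable def tr (b : σ → F) : MvPolynomial σ F →ₐ[F] MvPolynomial σ F :=
  MvPolynomial.aeval fun a => MvPolynomial.X a + MvPolynomial.C (b a)

theorem eval_tr (b c : σ → F) (p : MvPolynomial σ F) :
    MvPolynomial.eval c (tr b p) = MvPolynomial.eval (fun a => c a + b a) p := by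
  unfold tr
  rw [← MvPolynomial.coe_aeval_eq_eval, ← MvPolynomial.coe_aeval_eq_eval]
  change (MvPolynomial.aeval c) ((MvPolynomial.aeval _) p) = (MvPolynomial.aeval _) p
  rw [← AlgHom.comp_apply]
  congr 1
  apply MvPolynomial.algHom_ext
  intro a
  simp

/-- `u` has a nonzero coefficient of degree at most `D`. -/
def Low (D : ℕ) (u : MvPolynomial σ F) : Prop :=
  ∃ m : σ →₀ ℕ, m.degree ≤ D ∧ u.coeff m ≠ 0

theorem Low.mono {D D' : ℕ} (h : D ≤ D') {u : MvPolynomial σ F} (hu : Low D u) : Low D' u := by
  obtain ⟨m, h1, h2⟩ := hu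
  exact ⟨m, h1.trans h, h2⟩

theorem coeff_kill [DecidableEq σ] (S : Finset σ) (m : σ →₀ ℕ) (hm : m.support ⊆ S)
    (q : MvPolynomial σ F) :
    MvPolynomial.coeff m (MvPolynomial.aeval
      (fun i => if i ∈ S then (MvPolynomial.X i : MvPolynomial σ F) else 0) q) =
      MvPolynomial.coeff m q := by
  induction q using MvPolynomial.induction_on' with
  | monomial u a =>
    rw [MvPolynomial.aeval_monomial]
    by_cases hu : u.support ⊆ S
    · congr 1
      rw [MvPolynomial.monomial_eq, MvPolynomial.algebraMap_eq]
      congr 1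
      apply Finset.prod_congr rfl
      intro i hi
      beta_reduce
      rw [if_pos (hu hi)]
    · obtain ⟨i, hi, hiS⟩ := Finset.not_subset.mp hu
      have h0 : (u.prod fun i k => (if i ∈ S then (MvPolynomial.X i : MvPolynomial σ F)
          else 0) ^ k) = 0 := by
        apply Finset.prod_eq_zero hi
        beta_reduce
        rw [if_neg hiS, zero_pow (Finsupp.mem_support_iff.mp hi)]
      rw [h0, mul_zero, MvPolynomial.coeff_zero, MvPolynomial.coeff_monomial, if_neg]
      intro h
      apply hiS
      apply hm
      rw [← h]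
      exact hi
  | add p q hp hq =>
    rw [map_add, MvPolynomial.coeff_add, MvPolynomial.coeff_add, hp, hq]

/-- A polynomial of low order at `x0` is nonzero at a point that differs from `x0` in few
coordinates. -/
theorem exists_small [Infinite F] [DecidableEq τ] (p : MvPolynomial τ F) (x0 : τ → F) (D : ℕ)
    (h : Low D (tr x0 p)) :
    ∃ S : Finset τ, S.card ≤ D ∧ ∃ x : τ → F, (∀ i, i ∉ S → x i = x0 i) ∧
      MvPolynomial.eval x p ≠ 0 := by
  obtain ⟨m, hm, hc⟩ := h
  refine ⟨m.support, ?_, ?_⟩
  · refine le_trans ?_ hm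
    rw [Finsupp.degree_apply]
    calc m.support.card = ∑ _i ∈ m.support, 1 := by simp
      _ ≤ ∑ i ∈ m.support, m i := Finset.sum_le_sum fun i hi =>
        Nat.one_le_iff_ne_zero.mpr (Finsupp.mem_support_iff.mp hi)
  · by_contra hcon
    push Not at hcon
    apply hc
    rw [← coeff_kill m.support m (Finset.Subset.refl _)]
    have h0 : MvPolynomial.aeval (fun i => if i ∈ m.support then
        (MvPolynomial.X i : MvPolynomial τ F) else 0) (tr x0 p) = 0 := by
      apply MvPolynomial.funext
      intro c
      rw [map_zero]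
      have e1 : MvPolynomial.eval c (MvPolynomial.aeval (fun i => if i ∈ m.support then
          (MvPolynomial.X i : MvPolynomial τ F) else 0) (tr x0 p)) =
          MvPolynomial.eval (fun i => if i ∈ m.support then c i else 0) (tr x0 p) := by
        rw [← MvPolynomial.coe_aeval_eq_eval, ← MvPolynomial.coe_aeval_eq_eval]
        change (MvPolynomial.aeval c) ((MvPolynomial.aeval _) _) = (MvPolynomial.aeval _) _
        rw [← AlgHom.comp_apply]
        congr 1
        apply MvPolynomial.algHom_ext
        intro i
        rw [AlgHom.comp_apply, MvPolynomial.aeval_X, MvPolynomial.aeval_X]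
        split_ifs <;> simp
      rw [e1, eval_tr]
      apply hcon
      intro i hi
      rw [if_neg hi, zero_add]
    rw [h0, MvPolynomial.coeff_zero]

/-- Scaling in a homogeneous polynomial. -/
theorem aeval_X_mul {k : ℕ} {q : MvPolynomial σ F} (hq : q.IsHomogeneous k) (c : σ → F[X]) :
    MvPolynomial.aeval (fun a => X * c a) q = X ^ k * MvPolynomial.aeval c q := by
  conv_lhs => rw [MvPolynomial.as_sum q]
  conv_rhs => rw [MvPolynomial.as_sum q]
  rw [map_sum, map_sum, Finset.mul_sum]
  apply Finset.sum_congr rfl
  intro m hm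
  rw [MvPolynomial.aeval_monomial, MvPolynomial.aeval_monomial]
  have hdeg : m.degree = k := by
    by_contra hne
    exact MvPolynomial.mem_support_iff.mp hm (hq.coeff_eq_zero hne)
  have e : (m.prod fun i j => (X * c i) ^ j) = X ^ k * m.prod fun i j => c i ^ j := by
    rw [← hdeg, Finsupp.degree_apply]
    unfold Finsupp.prod
    rw [← Finset.prod_pow_eq_pow_sum, ← Finset.prod_mul_distrib]
    apply Finset.prod_congr rfl
    intro i _
    beta_reduce
    rw [mul_pow]
  rw [e]
  ring

/-- The restriction to the line `x0 + X v`. -/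
noncomputable def line (x0 v : τ → F) : MvPolynomial τ F →ₐ[F] F[X] :=
  MvPolynomial.aeval fun i => C (x0 i) + X * C (v i)

/-- Evaluation at `b + X c` in terms of the homogeneous parts at `b`. -/
theorem aeval_near (b : σ → F) (c : σ → F[X]) (P : MvPolynomial σ F) (j : ℕ)
    (h0 : ∀ k, k < j → MvPolynomial.homogeneousComponent k (tr b P) = 0) :
    (MvPolynomial.aeval (fun a => C (b a) + X * c a) P).coeff j =
      MvPolynomial.eval (fun a => (c a).eval 0) (MvPolynomial.homogeneousComponent j (tr b P)) := by
  have e1 : MvPolynomial.aeval (fun a => C (b a) + X * c a) P =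
      MvPolynomial.aeval (fun a => X * c a) (tr b P) := by
    unfold tr
    rw [← AlgHom.comp_apply]
    congr 1
    apply MvPolynomial.algHom_ext
    intro a
    simp only [MvPolynomial.aeval_X, AlgHom.comp_apply, map_add, MvPolynomial.algHom_C]
    rw [add_comm]
    rfl
  have e2 : ∀ k, (MvPolynomial.aeval (fun a => X * c a)
      (MvPolynomial.homogeneousComponent k (tr b P))).coeff j =
      if k = j then MvPolynomial.eval (fun a => (c a).eval 0)
        (MvPolynomial.homogeneousComponent j (tr b P)) else 0 := by
    intro k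
    rw [aeval_X_mul (MvPolynomial.homogeneousComponent_isHomogeneous k _)]
    rcases lt_trichotomy k j with hk | hk | hk
    · rw [if_neg hk.ne, h0 k hk, map_zero, mul_zero, Polynomial.coeff_zero]
    · subst hk
      rw [if_pos rfl, Polynomial.coeff_X_pow_mul', if_pos le_rfl, Nat.sub_self,
        Polynomial.coeff_zero_eq_eval_zero]
      rw [← Polynomial.coe_evalRingHom, ← MvPolynomial.coe_aeval_eq_eval]
      change _ = (MvPolynomial.aeval _) _
      rw [MvPolynomial.aeval_def, MvPolynomial.hom_eval₂, MvPolynomial.aeval_def]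
      congr 1
      ext x
      simp
    · rw [if_neg hk.ne', Polynomial.coeff_X_pow_mul', if_neg (by omega)]
  rw [e1]
  conv_lhs => rw [← MvPolynomial.sum_homogeneousComponent (tr b P)]
  rw [map_sum, Polynomial.finsetSum_coeff, Finset.sum_congr rfl (fun k _ => e2 k),
    Finset.sum_ite_eq']
  split_ifs with hj
  · rfl
  · rw [Finset.mem_range, not_lt] at hj
    rw [MvPolynomial.homogeneousComponent_eq_zero j _ (by omega), map_zero]

theorem line_coeff (x0 v : τ → F) [Fintype τ] [DecidableEq τ] (p : MvPolynomial τ F) :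
    (line x0 v p).coeff 0 = MvPolynomial.eval x0 p ∧
      (line x0 v p).coeff 1 = ∑ i, v i * MvPolynomial.eval x0 (MvPolynomial.pderiv i p) := by
  induction p using MvPolynomial.induction_on with
  | C a =>
    have e : line x0 v (MvPolynomial.C a) = C a := by
      unfold line
      exact MvPolynomial.algHom_C _ a
    rw [e]
    simp [Polynomial.coeff_C]
  | add p q hp hq =>
    rw [map_add, Polynomial.coeff_add, Polynomial.coeff_add, hp.1, hq.1, hp.2, hq.2]
    refine ⟨(map_add _ _ _).symm, ?_⟩
    rw [← Finset.sum_add_distrib]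
    apply Finset.sum_congr rfl
    intro i _
    rw [map_add, map_add]
    ring
  | mul_X p i hp =>
    have e : line x0 v (MvPolynomial.X i) = C (x0 i) + X * C (v i) := by
      unfold line
      rw [MvPolynomial.aeval_X]
    have c0 : (C (x0 i) + X * C (v i) : F[X]).coeff 0 = x0 i := by
      simp
    have c1 : (C (x0 i) + X * C (v i) : F[X]).coeff 1 = v i := by
      rw [Polynomial.coeff_add, Polynomial.coeff_C, if_neg one_ne_zero, mul_comm,
        Polynomial.coeff_C_mul, Polynomial.coeff_X_one, mul_one, zero_add]
    rw [map_mul, e, Polynomial.mul_coeff_zero, Polynomial.mul_coeff_one, hp.1, hp.2, c0, c1]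
    refine ⟨by rw [map_mul, MvPolynomial.eval_X], ?_⟩
    have e2 : ∀ l, v l * MvPolynomial.eval x0 (MvPolynomial.pderiv l (p * MvPolynomial.X i)) =
        v l * MvPolynomial.eval x0 (MvPolynomial.pderiv l p) * x0 i +
        (if l = i then v i * MvPolynomial.eval x0 p else 0) := by
      intro l
      rw [MvPolynomial.pderiv_mul, MvPolynomial.pderiv_X, map_add, map_mul, map_mul,
        MvPolynomial.eval_X]
      by_cases hl : l = i
      · subst hl
        rw [Pi.single_eq_same, if_pos rfl, map_one]
        ring
      · rw [Pi.single_eq_of_ne (Ne.symm hl), if_neg hl, map_zero]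
        ring
    rw [Finset.sum_congr rfl (fun l _ => e2 l), Finset.sum_add_distrib, Finset.sum_ite_eq',
      if_pos (Finset.mem_univ _), ← Finset.sum_mul]
    ring

theorem line_eq (x0 v : τ → F) [Fintype τ] [DecidableEq τ] (p : MvPolynomial τ F) :
    ∃ r : F[X], line x0 v p = C (MvPolynomial.eval x0 p) + X *
      (C (∑ i, v i * MvPolynomial.eval x0 (MvPolynomial.pderiv i p)) + X * r) := by
  obtain ⟨h0, h1⟩ := line_coeff x0 v p
  refine ⟨(line x0 v p).divX.divX, ?_⟩
  rw [← h0, ← h1]
  have e1 := Polynomial.X_mul_divX_add (line x0 v p)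
  have e2 := Polynomial.X_mul_divX_add (line x0 v p).divX
  rw [Polynomial.coeff_divX, zero_add] at e2
  rw [add_comm (C ((line x0 v p).coeff 1)), e2, add_comm, e1]

theorem low_of_line (x0 v : τ → F) (p : MvPolynomial τ F) (j : ℕ)
    (h : (line x0 v p).coeff j ≠ 0) : Low j (tr x0 p) := by
  by_contra hcon
  unfold Low at hcon
  push Not at hcon
  have hz : ∀ k, k ≤ j → MvPolynomial.homogeneousComponent k (tr x0 p) = 0 := by
    intro k hk
    ext m
    rw [MvPolynomial.coeff_homogeneousComponent, MvPolynomial.coeff_zero]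
    split_ifs with hm
    · exact hcon m (by omega)
    · rfl
  apply h
  have := aeval_near x0 (fun i => C (v i)) p j (fun k hk => hz k hk.le)
  unfold line
  rw [this, hz j le_rfl, map_zero]

/-- The order of a polynomial does not grow under composition with a map whose Jacobian is
onto; the direction can be chosen in any set of coordinates on which the Jacobian covers the
variables of the polynomial. -/
theorem line_comp [Infinite F] [Fintype τ] [DecidableEq τ] (h : σ → MvPolynomial τ F)
    (x0 : τ → F) (V : Set (τ → F)) (A : Set σ)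
    (hJ : ∀ w : σ → F, ∃ v ∈ V, ∀ a ∈ A,
      ∑ i, v i * MvPolynomial.eval x0 (MvPolynomial.pderiv i (h a)) = w a)
    (P : MvPolynomial σ F) (hA : ∀ a ∈ P.vars, a ∈ A) (D : ℕ)
    (hP : Low D (tr (fun a => MvPolynomial.eval x0 (h a)) P)) :
    ∃ v ∈ V, ∃ j ≤ D, (line x0 v (MvPolynomial.bind₁ h P)).coeff j ≠ 0 := by
  classical
  obtain ⟨b, hb⟩ : ∃ b : σ → F, b = fun a => MvPolynomial.eval x0 (h a) := ⟨_, rfl⟩
  rw [← hb] at hP
  obtain ⟨m, hm, hmc⟩ := hP
  have hex : ∃ k, MvPolynomial.homogeneousComponent k (tr b P) ≠ 0 := by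
    refine ⟨m.degree, fun h0 => hmc ?_⟩
    have := congrArg (MvPolynomial.coeff m) h0
    rwa [MvPolynomial.coeff_homogeneousComponent, if_pos rfl, MvPolynomial.coeff_zero] at this
  obtain ⟨j, hj, hmin⟩ : ∃ j, MvPolynomial.homogeneousComponent j (tr b P) ≠ 0 ∧
      ∀ k, k < j → MvPolynomial.homogeneousComponent k (tr b P) = 0 :=
    ⟨Nat.find hex, Nat.find_spec hex, fun k hk => by
      have := Nat.find_min hex hk
      push Not at this
      exact this⟩
  have hjD : j ≤ D := by
    by_contra hlt
    have h1 := hmin m.degree (by omega)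
    apply hmc
    have := congrArg (MvPolynomial.coeff m) h1
    rwa [MvPolynomial.coeff_homogeneousComponent, if_pos rfl, MvPolynomial.coeff_zero] at this
  obtain ⟨w, hw⟩ : ∃ w, MvPolynomial.eval w (MvPolynomial.homogeneousComponent j (tr b P)) ≠ 0 := by
    by_contra hcon
    push Not at hcon
    exact hj (MvPolynomial.funext fun c => by rw [hcon c, map_zero])
  obtain ⟨v, hvV, hv⟩ := hJ w
  refine ⟨v, hvV, j, hjD, ?_⟩
  have hline : ∀ a, ∃ r : F[X], line x0 v (h a) = C (b a) + X *
      (C (∑ i, v i * MvPolynomial.eval x0 (MvPolynomial.pderiv i (h a))) + X * r) := by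
    intro a
    rw [hb]
    exact line_eq x0 v (h a)
  choose r hr using hline
  have e1 : line x0 v (MvPolynomial.bind₁ h P) =
      MvPolynomial.aeval (fun a => C (b a) + X * (if a ∈ A then C (w a) + X * r a else
        C (w a) + X * r a)) P := by
    have e2 : line x0 v (MvPolynomial.bind₁ h P) =
        MvPolynomial.aeval (fun a => line x0 v (h a)) P := by
      rw [← AlgHom.comp_apply]
      congr 1
      apply MvPolynomial.algHom_ext
      intro a
      rw [AlgHom.comp_apply, MvPolynomial.bind₁_X_right, MvPolynomial.aeval_X]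
    rw [e2, MvPolynomial.aeval_def, MvPolynomial.aeval_def]
    apply MvPolynomial.eval₂_congr
    intro a c ha hc
    have haA : a ∈ A := by
      apply hA
      rw [MvPolynomial.mem_vars_iff_mem_support]
      exact ⟨c, MvPolynomial.mem_support_iff.mpr hc, ha⟩
    rw [hr a, hv a haA, if_pos haA]
  simp only [ite_self] at e1
  rw [e1, aeval_near b _ P j hmin]
  have e3 : (fun a => (C (w a) + X * r a).eval 0) = w := by
    funext a
    simp
  rw [e3]
  exact hw

end Pool.Agent.CMP
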