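import Mathlib
import Pool.Agent.Helper12_CMP.Ord
import Pool.Agent.Helper12_CMP.Jet

set_option autoImplicit false

/-! Taylor expansion in characteristic zero. -/

namespace Pool.Agent.CMP

variable {F : Type*} [Field F] {σ : Type*}

theorem tr_pderiv (b : σ → F) (i : σ) (p : MvPolynomial σ F) :
    tr b (MvPolynomial.pderiv i p) = MvPolynomial.pderiv i (tr b p) := by
  classical
  induction p using MvPolynomial.induction_on with
  | C a =>
    have e : tr b (MvPolynomial.C a) = MvPolynomial.C a := by
      unfold tr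
      exact MvPolynomial.algHom_C _ a
    rw [e, MvPolynomial.pderiv_C, map_zero]
  | add p q hp hq => rw [map_add, map_add, map_add, map_add, hp, hq]
  | mul_X p a hp =>
    have e : tr b (MvPolynomial.X a) = MvPolynomial.X a + MvPolynomial.C (b a) := by
      unfold tr
      rw [MvPolynomial.aeval_X]
    rw [MvPolynomial.pderiv_mul, MvPolynomial.pderiv_X, map_add, map_mul, map_mul, map_mul, e,
      MvPolynomial.pderiv_mul, map_add, MvPolynomial.pderiv_X, MvPolynomial.pderiv_C, add_zero, hp]
    by_cases h : i = a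
    · subst h
      rw [Pi.single_eq_same, map_one]
    · rw [Pi.single_eq_of_ne (Ne.symm h), map_zero]

/-- The exponent of a list of directions. -/
noncomputable def mL {S : Set σ} : List S → σ →₀ ℕ
  | [] => 0
  | i :: L => mL L + Finsupp.single (i : σ) 1

theorem mL_degree {S : Set σ} (L : List S) : (mL L).degree = L.length := by
  induction L with
  | nil => exact map_zero _
  | cons i L ih =>
    change (mL L + Finsupp.single (i : σ) 1).degree = _
    rw [map_add, ih, Finsupp.degree_single]
    rfl

theorem exists_mL {S : Set σ} (m : σ →₀ ℕ) (hm : ∀ i ∈ m.support, i ∈ S) :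
    ∃ L : List S, mL L = m := by
  classical
  obtain ⟨d, hd⟩ : ∃ d, d = m.degree := ⟨_, rfl⟩
  induction d generalizing m with
  | zero =>
    refine ⟨[], ?_⟩
    exact ((Finsupp.degree_eq_zero_iff m).mp hd.symm).symm
  | succ d ih =>
    have hne : m ≠ 0 := by
      rintro rfl
      rw [map_zero] at hd
      omega
    obtain ⟨i, hi⟩ := Finsupp.support_nonempty_iff.mpr hne
    have h1 : Finsupp.single i 1 ≤ m := by
      rw [Finsupp.single_le_iff]
      exact Nat.one_le_iff_ne_zero.mpr (Finsupp.mem_support_iff.mp hi)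
    have h2 : m - Finsupp.single i 1 + Finsupp.single i 1 = m := tsub_add_cancel_of_le h1
    obtain ⟨L, hL⟩ := ih (m - Finsupp.single i 1) (fun j hj => by
      apply hm
      rw [Finsupp.mem_support_iff] at hj ⊢
      intro h0
      apply hj
      rw [Finsupp.tsub_apply, h0, Nat.zero_sub]) (by
        have h3 := congrArg Finsupp.degree h2
        rw [map_add, Finsupp.degree_single] at h3
        omega)
    refine ⟨⟨i, hm i hi⟩ :: L, ?_⟩
    change mL L + Finsupp.single i 1 = m
    rw [hL, h2]

theorem coeff_dL {S : Set σ} (b : σ → F) (L : List S) (p : MvPolynomial σ F) :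
    ∀ m, ∃ c : ℕ, 0 < c ∧
      (tr b (dL L p)).coeff m = (c : F) * (tr b p).coeff (m + mL L) := by
  classical
  induction L with
  | nil =>
    intro m
    refine ⟨1, one_pos, ?_⟩
    change (tr b p).coeff m = _ * (tr b p).coeff (m + 0)
    rw [add_zero, Nat.cast_one, one_mul]
  | cons i L ih =>
    intro m
    obtain ⟨c, hc, h⟩ := ih (m + Finsupp.single (i : σ) 1)
    refine ⟨c * (m (i : σ) + 1), by positivity, ?_⟩
    rw [dL_cons, tr_pderiv, MvPolynomial.coeff_pderiv, h]
    change _ = _ * (tr b p).coeff (m + (mL L + Finsupp.single (i : σ) 1))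
    rw [show m + Finsupp.single (i : σ) 1 + mL L = m + (mL L + Finsupp.single (i : σ) 1) by
      rw [add_assoc, add_comm (Finsupp.single (i : σ) 1)]]
    push_cast
    ring

theorem eval_eq_coeff (b : σ → F) (p : MvPolynomial σ F) :
    MvPolynomial.eval b p = (tr b p).coeff 0 := by
  have h := eval_tr b 0 p
  have e : (fun a => (0 : σ → F) a + b a) = b := by
    funext a
    rw [Pi.zero_apply, zero_add]
  rw [e] at h
  rw [← h, ← MvPolynomial.constantCoeff_eq]
  rw [MvPolynomial.eval_zero]

/-- A nonzero derivative of order at most `D` bounds the order. -/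
theorem low_of_dL {S : Set σ} (b : σ → F) (L : List S) (p : MvPolynomial σ F) (D : ℕ)
    (hL : L.length ≤ D) (h : MvPolynomial.eval b (dL L p) ≠ 0) : Low D (tr b p) := by
  obtain ⟨c, _, hc⟩ := coeff_dL b L p 0
  rw [eval_eq_coeff, hc, zero_add] at h
  exact ⟨mL L, by rw [mL_degree]; exact hL, right_ne_zero_of_mul h⟩

/-- Taylor expansion. -/
theorem taylor [CharZero F] (S : Set σ) (b : σ → F) (p : MvPolynomial σ F)
    (h : ∀ L : List S, MvPolynomial.eval b (dL L p) = 0) (c : σ → F)
    (hc : ∀ a, a ∉ S → c a = 0) : MvPolynomial.eval (fun a => c a + b a) p = 0 := by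
  classical
  rw [← eval_tr, MvPolynomial.eval_eq]
  apply Finset.sum_eq_zero
  intro m _
  by_cases hm : ∀ i ∈ m.support, i ∈ S
  · obtain ⟨L, hL⟩ := exists_mL m hm
    obtain ⟨k, hk, hk'⟩ := coeff_dL b L p 0
    rw [← eval_eq_coeff, h L, zero_add, hL] at hk'
    have h1 : (k : F) ≠ 0 := Nat.cast_ne_zero.mpr hk.ne'
    rw [(mul_eq_zero.mp hk'.symm).resolve_left h1, zero_mul]
  · push Not at hm
    obtain ⟨i, hi, hiS⟩ := hm
    rw [Finset.prod_eq_zero hi, mul_zero]
    rw [hc i hiS, zero_pow (Finsupp.mem_support_iff.mp hi)]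

end Pool.Agent.CMP
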