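import Mathlib
import Pool.Agent.Helper12_UO.LemmaK
import Pool.Agent.Helper12_CMP.Taylor

set_option autoImplicit false

/-! A program in terms of the few layers which meet a small set of variables. -/

namespace Pool.Agent.CMP

open Pool.Agent.UO

variable {F : Type*} [Field F] {σ : Type*}

theorem exists_supported {f : (σ → F) → F} (hf : IsPoly f) (V : Set σ)
    (hV : ∀ y y' : σ → F, (∀ i ∈ V, y i = y' i) → f y = f y') :
    ∃ p ∈ MvPolynomial.supported F V, ∀ y, f y = MvPolynomial.eval y p := by
  classical
  obtain ⟨p, hp⟩ := hf
  obtain ⟨g, hg⟩ : ∃ g : σ → MvPolynomial σ F,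
      g = fun i => if i ∈ V then (MvPolynomial.X i : MvPolynomial σ F) else 0 := ⟨_, rfl⟩
  have hgm : ∀ i, g i ∈ MvPolynomial.supported F V := by
    intro i
    rw [hg]
    beta_reduce
    split_ifs with h
    · rw [MvPolynomial.supported_eq_adjoin_X]
      exact Algebra.subset_adjoin ⟨i, h, rfl⟩
    · exact zero_mem _
  refine ⟨MvPolynomial.aeval g p, ?_, ?_⟩
  · have hmem : ∀ p : MvPolynomial σ F,
        MvPolynomial.aeval g p ∈ MvPolynomial.supported F V := by
      intro p
      induction p using MvPolynomial.induction_on with
      | C a =>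
        rw [MvPolynomial.algHom_C]
        exact Subalgebra.algebraMap_mem _ _
      | add p q hp' hq' =>
        rw [map_add]
        exact add_mem hp' hq'
      | mul_X p i hp' =>
        rw [map_mul, MvPolynomial.aeval_X]
        exact mul_mem hp' (hgm i)
    exact hmem p
  · intro y
    have e1 : MvPolynomial.eval y (MvPolynomial.aeval g p) =
        MvPolynomial.eval (fun i => if i ∈ V then y i else 0) p := by
      rw [← MvPolynomial.coe_aeval_eq_eval, ← MvPolynomial.coe_aeval_eq_eval]
      change (MvPolynomial.aeval y) ((MvPolynomial.aeval _) _) = (MvPolynomial.aeval _) _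
      rw [← AlgHom.comp_apply]
      congr 1
      apply MvPolynomial.algHom_ext
      intro i
      rw [AlgHom.comp_apply, MvPolynomial.aeval_X, MvPolynomial.aeval_X, hg]
      beta_reduce
      split_ifs <;> simp
    rw [e1, ← hp]
    apply hV
    intro i hi
    rw [if_pos hi]

variable {r : ℕ}

/-- The layers in `[i, j)` that meet `S`. -/
def meet [DecidableEq σ] (A : KProg F σ r) (S : Finset σ) (i j : ℕ) : Finset ℕ :=
  (Finset.Ico i j).filter fun l => ∃ a ∈ S, a ∈ A.V l

theorem card_meet_le [DecidableEq σ] (A : KProg F σ r) (S : Finset σ) (i j k : ℕ)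
    (hk : ∀ v, occ A.V v i j ≤ k) : (meet A S i j).card ≤ S.card * k := by
  have h : meet A S i j ⊆ S.biUnion fun a => (Finset.Ico i j).filter fun l => a ∈ A.V l := by
    intro l hl
    unfold meet at hl
    rw [Finset.mem_filter] at hl
    obtain ⟨h1, a, ha, h2⟩ := hl
    rw [Finset.mem_biUnion]
    exact ⟨a, ha, Finset.mem_filter.mpr ⟨h1, h2⟩⟩
  exact (Finset.card_le_card h).trans (Finset.card_biUnion_le_card_mul _ _ k fun a _ => hk a)

theorem decomp [DecidableEq σ] {R : Type} [Fintype R] [DecidableEq R] (A : KProg F σ r)
    (Θ : Matrix (Fin r) (Fin r) F →* Matrix R R F)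
    (hΘ : ∀ T : (σ → F) → Matrix (Fin r) (Fin r) F, IsPolyMat T → IsPolyMat (fun y => Θ (T y)))
    (S : Finset σ) (i : ℕ) : ∀ j, i ≤ j →
    ∃ (ι : Type) (_ : Fintype ι), Fintype.card ι =
      (Fintype.card R * Fintype.card R) ^ (meet A S i j).card ∧
    ∃ (β : ι → MvPolynomial σ F) (α : ι → R → R → MvPolynomial σ F),
      (∀ e, β e ∈ MvPolynomial.supported F (((meet A S i j).biUnion A.V : Finset σ) : Set σ)) ∧
      (∀ e u v, α e u v ∈ MvPolynomial.supported F ((S : Set σ)ᶜ)) ∧
      ∀ y u v, Θ (A.P i j y) u v =
        ∑ e, MvPolynomial.eval y (α e u v) * MvPolynomial.eval y (β e) := by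
  classical
  intro j hij
  induction j, hij using Nat.le_induction with
  | base =>
    refine ⟨Unit, inferInstance, ?_, fun _ => 1, fun _ u v => if u = v then 1 else 0, ?_, ?_, ?_⟩
    · unfold meet
      rw [Finset.Ico_self, Finset.filter_empty, Finset.card_empty, pow_zero, Fintype.card_unit]
    · intro e
      exact one_mem _
    · intro e u v
      beta_reduce
      split_ifs
      · exact one_mem _
      · exact zero_mem _
    · intro y u v
      rw [A.P_self, map_one, Finset.univ_unique, Finset.sum_singleton, map_one, mul_one,
        Matrix.one_apply]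
      beta_reduce
      split_ifs
      · rw [map_one]
      · rw [map_zero]
  | succ j hij ih =>
    obtain ⟨ι, hι, hcard, β, α, hβ, hα, hdec⟩ := ih
    have hPj : ∀ y, A.P i (j + 1) y = A.P i j y * A.T j y := by
      intro y
      rw [← A.P_mul hij (Nat.le_succ j) y]
      congr 1
      exact A.P_succ j y
    have hent : ∀ w v, ∃ p ∈ MvPolynomial.supported F ((A.V j : Finset σ) : Set σ),
        ∀ y, Θ (A.T j y) w v = MvPolynomial.eval y p := by
      intro w v
      apply exists_supported (hΘ _ (A.poly j) w v)
      intro y y' h
      beta_reduce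
      rw [A.dep j y y' (fun a ha => h a ha)]
    choose θ hθm hθ using hent
    have hIco : Finset.Ico i (j + 1) = insert j (Finset.Ico i j) := by
      ext l
      rw [Finset.mem_insert, Finset.mem_Ico, Finset.mem_Ico]
      omega
    have hval : ∀ y u v, Θ (A.P i (j + 1) y) u v = ∑ w, (∑ e, MvPolynomial.eval y (α e u w) *
        MvPolynomial.eval y (β e)) * MvPolynomial.eval y (θ w v) := by
      intro y u v
      rw [hPj, map_mul, Matrix.mul_apply]
      apply Finset.sum_congr rfl
      intro w _
      rw [hdec, hθ]
    by_cases hj : ∃ a ∈ S, a ∈ A.V j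
    · have hmeet : meet A S i (j + 1) = insert j (meet A S i j) := by
        unfold meet
        rw [hIco, Finset.filter_insert, if_pos hj]
      have hnot : j ∉ meet A S i j := by
        unfold meet
        rw [Finset.mem_filter, Finset.mem_Ico]
        omega
      refine ⟨ι × (R × R), inferInstance, ?_, fun x => β x.1 * θ x.2.1 x.2.2,
        fun x u v => if v = x.2.2 then α x.1 u x.2.1 else 0, ?_, ?_, ?_⟩
      · rw [Fintype.card_prod, Fintype.card_prod, hcard, hmeet, Finset.card_insert_of_notMem hnot,
          pow_succ]
      · rintro ⟨e, w, v⟩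
        rw [hmeet, Finset.biUnion_insert]
        apply mul_mem
        · exact MvPolynomial.supported_mono (by
            intro a ha
            rw [Finset.mem_coe] at ha ⊢
            exact Finset.mem_union_right _ ha) (hβ e)
        · exact MvPolynomial.supported_mono (by
            intro a ha
            rw [Finset.mem_coe] at ha ⊢
            exact Finset.mem_union_left _ ha) (hθm w v)
      · rintro ⟨e, w, v'⟩ u v
        beta_reduce
        split_ifs
        · exact hα e u w
        · exact zero_mem _
      · intro y u v
        rw [hval, Fintype.sum_prod_type, Finset.sum_congr rfl (fun w _ => Finset.sum_mul _ _ _),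
          Finset.sum_comm]
        apply Finset.sum_congr rfl
        intro e _
        rw [Fintype.sum_prod_type]
        apply Finset.sum_congr rfl
        intro w _
        rw [Finset.sum_eq_single v]
        · beta_reduce
          rw [if_pos rfl, map_mul]
          ring
        · intro v' _ hv'
          beta_reduce
          rw [if_neg (Ne.symm hv'), map_zero, zero_mul]
        · intro h
          exact absurd (Finset.mem_univ v) h
    · have hmeet : meet A S i (j + 1) = meet A S i j := by
        unfold meet
        rw [hIco, Finset.filter_insert, if_neg hj]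
      rw [hmeet]
      refine ⟨ι, hι, hcard, β, fun e u v => ∑ w, α e u w * θ w v, hβ, ?_, ?_⟩
      · intro e u v
        apply sum_mem
        intro w _
        apply mul_mem (hα e u w)
        exact MvPolynomial.supported_mono (by
          intro a ha haS
          exact hj ⟨a, haS, ha⟩) (hθm w v)
      · intro y u v
        rw [hval, Finset.sum_congr rfl (fun w _ => Finset.sum_mul _ _ _), Finset.sum_comm]
        apply Finset.sum_congr rfl
        intro e _
        rw [map_sum, Finset.sum_mul]
        apply Finset.sum_congr rfl
        intro w _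
        rw [map_mul]
        ring

end Pool.Agent.CMP
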