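import Mathlib
import Pool.Agent.Helper12_UO.Defs

set_option autoImplicit false

/-! Towers of branching programs of bounded width and bounded read. -/

namespace Pool.Agent.CMP

open Matrix Pool.Agent.UO

/-- Auxiliary numbers for `seedLength`. -/
def bS (r k q : ℕ) : ℕ := kBs r k q + 2 * q

/-- Auxiliary numbers for `seedLength`. -/
def oD (r k q : ℕ) : ℕ := (r ^ r * r ^ r + 1) ^ (bS r k q * k)

/-- Auxiliary numbers for `seedLength`. -/
def dC (r k q : ℕ) : ℕ := bS r k q * k * q + oD r k q + 2 * q

/-- Auxiliary numbers for `seedLength`. -/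
def tC (r k q h : ℕ) : ℕ := q + h * dC r k q

/-- The number of terms of the generator for towers of height `d` over polynomials whose Jacobian
matrix is onto at a point with at most `t0` nonzero coordinates: it depends on `r`, `k`, `q`, `t0`
and `d` only. -/
def seedLength (r k q t0 d : ℕ) : ℕ :=
  t0 + d * tC (r + r) k q (r + r - 1) + tC r k q (r - 1)

section

variable {E : Type*} [Field E]

/-- The variables that occur in the entries of a matrix of polynomials. -/
noncomputable def layerVars {N r : ℕ} (M : Matrix (Fin r) (Fin r) (MvPolynomial (Fin N) E)) :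
    Finset (Fin N) :=
  Finset.univ.biUnion fun a => Finset.univ.biUnion fun b => (M a b).vars

/-- `f = u M_0 M_1 ... M_(m-1) v`, where the `M_l` are `r × r` matrices of polynomials in
`y_0, ..., y_(N-1)`, at most `q` variables occur in each `M_l`, each variable occurs in at most `k`
of the `M_l`, and `u`, `v` are constant vectors. -/
def IsProgram {N : ℕ} (r k q : ℕ) (f : MvPolynomial (Fin N) E) : Prop :=
  ∃ (m : ℕ) (M : Fin m → Matrix (Fin r) (Fin r) (MvPolynomial (Fin N) E)) (u v : Fin r → E),
    (∀ l, (layerVars (M l)).card ≤ q) ∧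
    (∀ i, (Finset.univ.filter fun l => i ∈ layerVars (M l)).card ≤ k) ∧
    f = (fun a => MvPolynomial.C (u a)) ⬝ᵥ
      ((List.ofFn M).prod *ᵥ fun a => MvPolynomial.C (v a))

/-- The Jacobian matrix of the polynomials `h_0, ..., h_(M-1)` at the point `x`. -/
noncomputable def jacobian {N M : ℕ} (h : Fin M → MvPolynomial (Fin N) E) (x : Fin N → E) :
    Matrix (Fin M) (Fin N) E :=
  Matrix.of fun a i => MvPolynomial.eval x (MvPolynomial.pderiv i (h a))

/-- Families `h_0, ..., h_(N-1)` of polynomials in `x_0, ..., x_(n-1)` of height `d`.  Height zero: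
the Jacobian matrix has rank `N` at some point with at most `t0` nonzero coordinates.  The height
does not change if a family is replaced by the polynomials `φ_b(h_0, ..., h_(N-1))`, where the
Jacobian matrix of the `φ_b` has rank equal to the number of the `φ_b` at every point.  It grows by
one if the family is replaced by the polynomials `P_b(h_0, ..., h_(N-1))`, where the `P_b` are
nonconstant programs in pairwise disjoint sets of variables. -/
inductive Family (n r k q t0 : ℕ) : ℕ → ∀ {N : ℕ}, (Fin N → MvPolynomial (Fin n) E) → Prop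
  | base {N : ℕ} (h : Fin N → MvPolynomial (Fin n) E) (x : Fin n → E) (S : Finset (Fin n))
      (hS : S.card ≤ t0) (hx : ∀ i, i ∉ S → x i = 0) (hr : (jacobian h x).rank = N) :
      Family n r k q t0 0 h
  | mix {d N M : ℕ} {h : Fin N → MvPolynomial (Fin n) E} (hh : Family n r k q t0 d h)
      (φ : Fin M → MvPolynomial (Fin N) E) (hφ : ∀ y, (jacobian φ y).rank = M) :
      Family n r k q t0 d (fun b => MvPolynomial.bind₁ h (φ b))
  | prog {d N M : ℕ} {h : Fin N → MvPolynomial (Fin n) E} (hh : Family n r k q t0 d h)
      (P : Fin M → MvPolynomial (Fin N) E) (hP : ∀ b, IsProgram r k q (P b))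
      (hne : ∀ b, (P b).vars.Nonempty) (hd : ∀ b b', b ≠ b' → Disjoint (P b).vars (P b').vars) :
      Family n r k q t0 (d + 1) (fun b => MvPolynomial.bind₁ h (P b))

/-- `f = P(h_0, ..., h_(N-1))` for a program `P` and a family `h_0, ..., h_(N-1)` of height `d`. -/
def IsTower (n r k q t0 d : ℕ) (f : MvPolynomial (Fin n) E) : Prop :=
  ∃ (N : ℕ) (h : Fin N → MvPolynomial (Fin n) E) (P : MvPolynomial (Fin N) E),
    Family n r k q t0 d h ∧ IsProgram r k q P ∧ f = MvPolynomial.bind₁ h P

end

end Pool.Agent.CMP
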