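import Mathlib
import Pool.Agent.Helper12_UO.Gen
import Pool.Agent.Helper12_CMP.Ord

set_option autoImplicit false

/-! Points where the Jacobian of a polynomial map is onto. -/

namespace Pool.Agent.CMP

open Pool.Agent.UO

variable {F : Type*} [Field F] {σ τ : Type*} [Fintype τ]

/-- The Jacobian matrix of `h` at `x` is onto. -/
def Onto (h : σ → MvPolynomial τ F) (x : τ → F) : Prop :=
  ∀ w : σ → F, ∃ v : τ → F, ∀ a,
    ∑ i, v i * MvPolynomial.eval x (MvPolynomial.pderiv i (h a)) = w a

/-- The values of `h` at the points of the generator where the Jacobian matrix is onto. -/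
def JS [DecidableEq τ] (h : σ → MvPolynomial τ F) (c : τ → F) (t : ℕ) : Set (σ → F) :=
  {y | ∃ x ∈ Im c t, Onto h x ∧ y = fun a => MvPolynomial.eval x (h a)}

theorem JS_mono [DecidableEq τ] (h : σ → MvPolynomial τ F) (c : τ → F) {s t : ℕ} (hst : s ≤ t)
    {y : σ → F} (hy : y ∈ JS h c s) : y ∈ JS h c t := by
  obtain ⟨x, hx, ho, rfl⟩ := hy
  exact ⟨x, Im_mono c hst hx, ho, rfl⟩

theorem JS_mono' [DecidableEq τ] (h : σ → MvPolynomial τ F) (c : τ → F) {s t : ℕ} (hst : s ≤ t)
    (hy : (JS h c s).Nonempty) : (JS h c t).Nonempty := by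
  obtain ⟨y, hy⟩ := hy
  exact ⟨y, JS_mono h c hst hy⟩

/-- Being onto is a polynomial condition. -/
theorem exists_onto_poly [Fintype σ] [DecidableEq σ] (h : σ → MvPolynomial τ F) (x0 : τ → F)
    (h0 : Onto h x0) : ∃ g : MvPolynomial τ F, MvPolynomial.eval x0 g ≠ 0 ∧
      ∀ x, MvPolynomial.eval x g ≠ 0 → Onto h x := by
  classical
  choose V hV using fun b : σ => h0 (Pi.single b 1)
  obtain ⟨Mp, hMp⟩ : ∃ Mp : Matrix σ σ (MvPolynomial τ F), Mp = Matrix.of fun a b =>
      ∑ i, MvPolynomial.C (V b i) * MvPolynomial.pderiv i (h a) := ⟨_, rfl⟩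
  have hev : ∀ x a b, MvPolynomial.eval x (Mp a b) =
      ∑ i, V b i * MvPolynomial.eval x (MvPolynomial.pderiv i (h a)) := by
    intro x a b
    rw [hMp, Matrix.of_apply, map_sum]
    apply Finset.sum_congr rfl
    intro i _
    rw [map_mul, MvPolynomial.eval_C]
  have hdet : ∀ x, MvPolynomial.eval x Mp.det =
      (Matrix.of fun a b => MvPolynomial.eval x (Mp a b)).det := by
    intro x
    rw [RingHom.map_det]
    rfl
  refine ⟨Mp.det, ?_, ?_⟩
  · rw [hdet]
    have e : (Matrix.of fun a b => MvPolynomial.eval x0 (Mp a b)) = (1 : Matrix σ σ F) := by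
      ext a b
      rw [Matrix.of_apply, hev, hV, Matrix.one_apply, Pi.single_apply]
    rw [e, Matrix.det_one]
    exact one_ne_zero
  · intro x hx w
    rw [hdet] at hx
    obtain ⟨Mx, hMx⟩ : ∃ Mx : Matrix σ σ F, Mx = Matrix.of fun a b =>
        MvPolynomial.eval x (Mp a b) := ⟨_, rfl⟩
    rw [← hMx] at hx
    have hu : Mx.mulVec (Mx⁻¹.mulVec w) = w := by
      rw [Matrix.mulVec_mulVec, Matrix.mul_nonsing_inv _ (isUnit_iff_ne_zero.mpr hx),
        Matrix.one_mulVec]
    refine ⟨fun i => ∑ b, (Mx⁻¹.mulVec w) b * V b i, ?_⟩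
    intro a
    have h1 := congrFun hu a
    rw [← h1]
    have h2 : Mx.mulVec (Mx⁻¹.mulVec w) a = ∑ b, Mx a b * (Mx⁻¹.mulVec w) b := rfl
    rw [h2]
    have h3 : ∀ b, Mx a b * (Mx⁻¹.mulVec w) b = ∑ i, (Mx⁻¹.mulVec w) b * V b i *
        MvPolynomial.eval x (MvPolynomial.pderiv i (h a)) := by
      intro b
      rw [hMx, Matrix.of_apply, hev, Finset.sum_mul]
      apply Finset.sum_congr rfl
      intro i _
      ring
    rw [Finset.sum_congr rfl (fun b _ => h3 b), Finset.sum_comm]
    apply Finset.sum_congr rfl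
    intro i _
    rw [Finset.sum_mul]

omit [Fintype τ] in
theorem isPoly_comp (h : σ → MvPolynomial τ F) {f : (σ → F) → F} (hf : IsPoly f) :
    IsPoly (fun x : τ → F => f (fun a => MvPolynomial.eval x (h a))) :=
  hf.comp (g := fun x a => MvPolynomial.eval x (h a)) fun a => ⟨h a, fun _ => rfl⟩

/-- Nonvanishing on the image of the generator can be combined with the Jacobian condition. -/
theorem JS_of_Im [Infinite F] [DecidableEq τ] [Fintype σ] [DecidableEq σ]
    (h : σ → MvPolynomial τ F) (c : τ → F) (t : ℕ) (hne : (JS h c t).Nonempty) {ι : Type*}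
    (s : Finset ι) {f : ι → (σ → F) → F} (hf : ∀ i ∈ s, IsPoly (f i))
    (hs : ∀ i ∈ s, ∃ x ∈ Im c t, f i (fun a => MvPolynomial.eval x (h a)) ≠ 0) :
    ∃ y ∈ JS h c t, ∀ i ∈ s, f i y ≠ 0 := by
  classical
  obtain ⟨_, x0, hx0, ho0, rfl⟩ := hne
  obtain ⟨g, hg0, hg⟩ := exists_onto_poly h x0 ho0
  obtain ⟨x, hx, hx'⟩ := Im_common c t (insert none (s.image some))
    (f := fun (o : Option ι) x => o.elim (MvPolynomial.eval x g)
      (fun i => f i (fun a => MvPolynomial.eval x (h a)))) (by
      intro o ho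
      rcases o with _ | i
      · exact ⟨g, fun _ => rfl⟩
      · rw [Finset.mem_insert, Finset.mem_image] at ho
        rcases ho with ho | ⟨i', hi', he⟩
        · exact absurd ho (by simp)
        · rw [Option.some_inj] at he
          subst he
          exact isPoly_comp h (hf _ hi')) (by
      intro o ho
      rcases o with _ | i
      · exact ⟨x0, hx0, hg0⟩
      · rw [Finset.mem_insert, Finset.mem_image] at ho
        rcases ho with ho | ⟨i', hi', he⟩
        · exact absurd ho (by simp)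
        · rw [Option.some_inj] at he
          subst he
          exact hs _ hi')
  refine ⟨fun a => MvPolynomial.eval x (h a), ⟨x, hx, hg x ?_, rfl⟩, ?_⟩
  · exact hx' none (Finset.mem_insert_self _ _)
  · intro i hi
    exact hx' (some i) (Finset.mem_insert_of_mem (Finset.mem_image_of_mem _ hi))

theorem JS_common [Infinite F] [DecidableEq τ] [Fintype σ] [DecidableEq σ]
    (h : σ → MvPolynomial τ F) (c : τ → F) (t : ℕ) (hne : (JS h c t).Nonempty) {ι : Type*}
    (s : Finset ι) {f : ι → (σ → F) → F} (hf : ∀ i ∈ s, IsPoly (f i))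
    (hs : ∀ i ∈ s, ∃ y ∈ JS h c t, f i y ≠ 0) :
    ∃ y ∈ JS h c t, ∀ i ∈ s, f i y ≠ 0 := by
  apply JS_of_Im h c t hne s hf
  intro i hi
  obtain ⟨_, ⟨x, hx, _, rfl⟩, hy⟩ := hs i hi
  exact ⟨x, hx, hy⟩

omit [Fintype τ] in
theorem eval_bind (h : σ → MvPolynomial τ F) (x : τ → F) (P : MvPolynomial σ F) :
    MvPolynomial.eval x (MvPolynomial.bind₁ h P) =
      MvPolynomial.eval (fun a => MvPolynomial.eval x (h a)) P := by
  have h1 := MvPolynomial.aeval_bind₁ x h P
  rw [MvPolynomial.aeval_eq_eval, MvPolynomial.aeval_eq_eval] at h1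
  exact h1

/-- A polynomial of low order at a point of `JS` is nonzero somewhere on a slightly larger set. -/
theorem JS_low [Infinite F] [DecidableEq τ] [Fintype σ] [DecidableEq σ]
    (h : σ → MvPolynomial τ F) {c : τ → F} (hc : Function.Injective c) (t D : ℕ) {b : σ → F}
    (hb : b ∈ JS h c t) (P : MvPolynomial σ F) (hP : Low D (tr b P)) :
    ∃ y ∈ JS h c (t + D), MvPolynomial.eval y P ≠ 0 := by
  classical
  obtain ⟨x0, hx0, ho, rfl⟩ := hb
  obtain ⟨v, _, j, hj, hv⟩ := line_comp h x0 Set.univ Set.univ (by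
    intro w
    obtain ⟨v, hv⟩ := ho w
    exact ⟨v, Set.mem_univ _, fun a _ => hv a⟩) P (fun a _ => Set.mem_univ a) D hP
  obtain ⟨S, hS, x, hx, hne⟩ := exists_small _ x0 D ((low_of_line x0 v _ j hv).mono hj)
  obtain ⟨y, hy, hy'⟩ := JS_of_Im h c (t + D)
    ⟨_, x0, Im_mono c (Nat.le_add_right t D) hx0, ho, rfl⟩ {()}
    (f := fun _ y => MvPolynomial.eval y P) (fun _ _ => ⟨P, fun _ => rfl⟩) (by
      intro _ _
      refine ⟨x, Im_perturb hc hx0 S hS hx, ?_⟩
      rw [eval_bind] at hne
      exact hne)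
  exact ⟨y, hy, hy' () (Finset.mem_singleton_self _)⟩

/-- Few columns of an onto matrix suffice to cover few rows. -/
theorem exists_columns [Fintype σ] [DecidableEq σ] [DecidableEq τ] (J : σ → τ → F)
    (hJ : ∀ w : σ → F, ∃ v : τ → F, ∀ a, ∑ i, v i * J a i = w a) (M : Finset σ) :
    ∃ C : Finset τ, C.card ≤ M.card ∧ ∀ w : σ → F, ∃ v : τ → F, (∀ i, i ∉ C → v i = 0) ∧
      ∀ a ∈ M, ∑ i, v i * J a i = w a := by
  classical
  obtain ⟨col, hcol⟩ : ∃ col : τ → (M → F), col = fun i (a : M) => J (a : σ) i := ⟨_, rfl⟩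
  obtain ⟨B, hB, hspan, hli⟩ := exists_linearIndependent F (Set.range col)
  have hfin : B.Finite := (Set.finite_range col).subset hB
  have : Fintype B := hfin.fintype
  have hBcard : Fintype.card B ≤ M.card := by
    have h1 := hli.fintype_card_le_finrank
    rw [Module.finrank_fintype_fun_eq_card, Fintype.card_coe] at h1
    exact h1
  choose pre hpre using fun b : B => hB b.2
  refine ⟨Finset.univ.image pre, Finset.card_image_le.trans (by
    rw [Finset.card_univ]; exact hBcard), ?_⟩
  intro w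
  have htop : (fun a : M => w a) ∈ Submodule.span F (Set.range col) := by
    obtain ⟨v, hv⟩ := hJ w
    have e : (fun a : M => w a) = ∑ i, v i • col i := by
      funext a
      rw [Finset.sum_apply, ← hv a, hcol]
      rfl
    rw [e]
    exact Submodule.sum_mem _ fun i _ => Submodule.smul_mem _ _ (Submodule.subset_span ⟨i, rfl⟩)
  rw [← hspan] at htop
  have hB' : B = Set.range (fun b : B => (b : M → F)) := Subtype.range_coe.symm
  rw [hB'] at htop
  obtain ⟨u, hu⟩ := (Submodule.mem_span_range_iff_exists_fun F).mp htop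
  refine ⟨fun i => ∑ b : B, if pre b = i then u b else 0, ?_, ?_⟩
  · intro i hi
    apply Finset.sum_eq_zero
    intro b _
    rw [if_neg]
    rintro rfl
    exact hi (Finset.mem_image_of_mem pre (Finset.mem_univ b))
  · intro a ha
    have h1 := congrFun hu ⟨a, ha⟩
    rw [Finset.sum_apply] at h1
    rw [← h1]
    simp only [Finset.sum_mul]
    rw [Finset.sum_comm]
    apply Finset.sum_congr rfl
    intro b _
    have h2 : ∀ i, (if pre b = i then u b else 0) * J a i =
        if pre b = i then u b * J a i else 0 := by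
      intro i
      split_ifs
      · rfl
      · rw [zero_mul]
    rw [Finset.sum_congr rfl (fun i _ => h2 i), Finset.sum_ite_eq, if_pos (Finset.mem_univ _),
      Pi.smul_apply, smul_eq_mul]
    congr 1
    rw [← hpre b, hcol]

omit [Fintype τ] in
theorem eval_line (x0 v : τ → F) (s : F) (p : MvPolynomial τ F) :
    (line x0 v p).eval s = MvPolynomial.eval (fun i => x0 i + s * v i) p := by
  induction p using MvPolynomial.induction_on with
  | C a =>
    unfold line
    rw [MvPolynomial.algHom_C, MvPolynomial.eval_C]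
    exact Polynomial.eval_C
  | add p q hp hq => rw [map_add, Polynomial.eval_add, hp, hq, map_add]
  | mul_X p i hp =>
    rw [map_mul, Polynomial.eval_mul, hp, map_mul, MvPolynomial.eval_X]
    unfold line
    rw [MvPolynomial.aeval_X]
    congr 1
    simp only [Polynomial.eval_add, Polynomial.eval_C, Polynomial.eval_mul, Polynomial.eval_X]

/-- A nonzero polynomial in few variables is nonzero somewhere on a slightly larger set. -/
theorem JS_few [Infinite F] [DecidableEq τ] [Fintype σ] [DecidableEq σ]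
    (h : σ → MvPolynomial τ F) {c : τ → F} (hc : Function.Injective c) (t : ℕ)
    (hne : (JS h c t).Nonempty) (M : Finset σ) (W : MvPolynomial σ F) (hW : W ≠ 0)
    (hWM : W ∈ MvPolynomial.supported F (M : Set σ)) :
    ∃ y ∈ JS h c (t + M.card), MvPolynomial.eval y W ≠ 0 := by
  classical
  obtain ⟨_, x0, hx0, ho, rfl⟩ := hne
  obtain ⟨C, hC, hC'⟩ := exists_columns
    (fun a i => MvPolynomial.eval x0 (MvPolynomial.pderiv i (h a))) ho M
  obtain ⟨D, hD⟩ : ∃ D, Low D (tr (fun a => MvPolynomial.eval x0 (h a)) W) := by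
    obtain ⟨b, hb⟩ : ∃ b : σ → F, b = fun a => MvPolynomial.eval x0 (h a) := ⟨_, rfl⟩
    rw [← hb]
    have hne : tr b W ≠ 0 := by
      intro h0
      apply hW
      apply MvPolynomial.funext
      intro z
      have h1 := eval_tr b (fun a => z a - b a) W
      rw [h0, map_zero] at h1
      have e : (fun a => (z a - b a) + b a) = z := by
        funext a
        ring
      rw [e] at h1
      rw [map_zero, h1]
    obtain ⟨m, hm⟩ := MvPolynomial.ne_zero_iff.mp hne
    exact ⟨m.degree, m, le_rfl, hm⟩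
  obtain ⟨v, hvV, j, _, hv⟩ := line_comp h x0 {v | ∀ i, i ∉ C → v i = 0} (M : Set σ) (by
    intro w
    obtain ⟨v, hv1, hv2⟩ := hC' w
    exact ⟨v, hv1, fun a ha => hv2 a (Finset.mem_coe.mp ha)⟩) W
    (fun a ha => MvPolynomial.mem_supported.mp hWM ha) D hD
  obtain ⟨s, hs⟩ : ∃ s : F, (line x0 v (MvPolynomial.bind₁ h W)).eval s ≠ 0 := by
    by_contra hcon
    push Not at hcon
    apply hv
    rw [Polynomial.funext (fun s => by rw [hcon s, Polynomial.eval_zero] :
      ∀ s, (line x0 v (MvPolynomial.bind₁ h W)).eval s = (0 : Polynomial F).eval s),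
      Polynomial.coeff_zero]
  rw [eval_line, eval_bind] at hs
  obtain ⟨y, hy, hy'⟩ := JS_of_Im h c (t + M.card)
    ⟨_, x0, Im_mono c (Nat.le_add_right t _) hx0, ho, rfl⟩ {()}
    (f := fun _ y => MvPolynomial.eval y W) (fun _ _ => ⟨W, fun _ => rfl⟩) (by
      intro _ _
      refine ⟨_, Im_perturb hc hx0 C hC ?_, hs⟩
      intro i hi
      rw [hvV i hi]
      ring)
  exact ⟨y, hy, hy' () (Finset.mem_singleton_self _)⟩

end Pool.Agent.CMP
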