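import Mathlib
import Pool.Agent.Helper12_CMP.Decomp

set_option autoImplicit false

/-! The order of a program at a generic point of few variables is bounded if it can be made nonzero
by changing few variables. -/

namespace Pool.Agent.CMP

open Pool.Agent.UO

variable {F : Type*} [Field F] {σ : Type*}

theorem dL_mul {S : Set σ} (L : List S) {α : MvPolynomial σ F}
    (hα : α ∈ MvPolynomial.supported F Sᶜ) (β : MvPolynomial σ F) :
    dL L (α * β) = α * dL L β := by
  classical
  induction L with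
  | nil => rfl
  | cons i L ih =>
    rw [dL_cons, ih, MvPolynomial.pderiv_mul, dL_cons]
    rw [MvPolynomial.pderiv_eq_zero_of_notMem_vars, zero_mul, zero_add]
    intro hi
    rw [MvPolynomial.mem_supported] at hα
    exact hα hi i.2

theorem dL_sum {S : Set σ} {ι : Type*} (L : List S) (t : Finset ι) (f : ι → MvPolynomial σ F) :
    dL L (∑ e ∈ t, f e) = ∑ e ∈ t, dL L (f e) := by
  induction L with
  | nil => rfl
  | cons i L ih => rw [dL_cons, ih, map_sum]; rfl

theorem low_of_jet [CharZero F] (S : Set σ) {D : ℕ} (β : Fin D → MvPolynomial σ F) (A : Set σ)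
    (hA : ∀ e, β e ∈ MvPolynomial.supported F A) :
    ∃ W : MvPolynomial σ F, W ≠ 0 ∧ W ∈ MvPolynomial.supported F A ∧
      ∀ α : Fin D → MvPolynomial σ F, (∀ e, α e ∈ MvPolynomial.supported F Sᶜ) →
        ∀ b : σ → F, MvPolynomial.eval b W ≠ 0 → ∀ c : σ → F, (∀ a, a ∉ S → c a = 0) →
          MvPolynomial.eval (fun a => c a + b a) (∑ e, α e * β e) ≠ 0 →
            Low D (tr b (∑ e, α e * β e)) := by
  classical
  obtain ⟨W, hW0, hWA, hW⟩ := jet S D β A hA
  refine ⟨W, hW0, hWA, ?_⟩
  intro α hα b hb c hc hne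
  have hder : ∀ L : List S, MvPolynomial.eval b (dL L (∑ e, α e * β e)) =
      ∑ e, MvPolynomial.eval b (α e) * MvPolynomial.eval b (dL L (β e)) := by
    intro L
    rw [dL_sum, map_sum]
    apply Finset.sum_congr rfl
    intro e _
    rw [dL_mul L (hα e), map_mul]
  by_contra hlow
  apply hne
  apply taylor S b _ _ c hc
  intro L
  rw [hder]
  apply hW b (fun e => MvPolynomial.eval b (α e)) hb
  intro L' hL'
  rw [← hder]
  by_contra h
  exact hlow (low_of_dL b L' _ D hL' h)

theorem jet_prog [CharZero F] [DecidableEq σ] {r : ℕ} {R : Type} [Fintype R] [DecidableEq R]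
    (A : KProg F σ r) (Θ : Matrix (Fin r) (Fin r) F →* Matrix R R F)
    (hΘ : ∀ T : (σ → F) → Matrix (Fin r) (Fin r) F, IsPolyMat T → IsPolyMat (fun y => Θ (T y)))
    (S : Finset σ) (i j : ℕ) (hij : i ≤ j) (k q D : ℕ) (hk : ∀ v, occ A.V v i j ≤ k)
    (hq : ∀ l, (A.V l).card ≤ q)
    (hD : (Fintype.card R * Fintype.card R + 1) ^ (S.card * k) ≤ D)
    (ψ : Matrix R R F →ₗ[F] F) :
    ∃ (G W : MvPolynomial σ F) (M : Finset σ), M.card ≤ S.card * k * q ∧ W ≠ 0 ∧
      W ∈ MvPolynomial.supported F (M : Set σ) ∧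
      (∀ y, MvPolynomial.eval y G = ψ (Θ (A.P i j y))) ∧
      ∀ b : σ → F, MvPolynomial.eval b W ≠ 0 → ∀ c : σ → F, (∀ a, a ∉ S → c a = 0) →
        MvPolynomial.eval (fun a => c a + b a) G ≠ 0 → Low D (tr b G) := by
  classical
  obtain ⟨ι, hι, hcard, β, α, hβ, hα, hdec⟩ := decomp A Θ hΘ S i j hij
  have hcardD : Fintype.card ι ≤ D := by
    rw [hcard]
    refine le_trans ?_ hD
    exact (Nat.pow_le_pow_left (Nat.le_succ _) _).trans
      (Nat.pow_le_pow_right (Nat.succ_pos _) (card_meet_le A S i j k hk))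
  obtain ⟨ε⟩ : Nonempty (ι ≃ Fin (Fintype.card ι)) := ⟨Fintype.equivFin ι⟩
  obtain ⟨W, hW0, hWA, hW⟩ := low_of_jet (S : Set σ) (fun e : Fin (Fintype.card ι) => β (ε.symm e))
    (((meet A S i j).biUnion A.V : Finset σ) : Set σ) (fun e => hβ _)
  obtain ⟨α', hα'⟩ : ∃ α' : Fin (Fintype.card ι) → MvPolynomial σ F, α' = fun e =>
      ∑ u, ∑ v, MvPolynomial.C (ψ (Matrix.single u v 1)) * α (ε.symm e) u v := ⟨_, rfl⟩
  have hα'S : ∀ e, α' e ∈ MvPolynomial.supported F ((S : Set σ)ᶜ) := by
    intro e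
    rw [hα']
    apply sum_mem
    intro u _
    apply sum_mem
    intro v _
    exact mul_mem (Subalgebra.algebraMap_mem _ _) (hα _ u v)
  refine ⟨∑ e, α' e * β (ε.symm e), W, (meet A S i j).biUnion A.V, ?_, hW0, hWA, ?_, ?_⟩
  · refine (Finset.card_biUnion_le_card_mul _ _ q fun l _ => hq l).trans ?_
    exact Nat.mul_le_mul_right q (card_meet_le A S i j k hk)
  · intro y
    have h1 : Θ (A.P i j y) = ∑ u, ∑ v, (∑ e, MvPolynomial.eval y (α e u v) *
        MvPolynomial.eval y (β e)) • Matrix.single u v (1 : F) := by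
      conv_lhs => rw [Matrix.matrix_eq_sum_single (Θ (A.P i j y))]
      apply Finset.sum_congr rfl
      intro u _
      apply Finset.sum_congr rfl
      intro v _
      rw [hdec, Matrix.smul_single, smul_eq_mul, mul_one]
    rw [h1, map_sum, map_sum]
    have h2 : ∀ e : Fin (Fintype.card ι), MvPolynomial.eval y (α' e * β (ε.symm e)) =
        ∑ u, ∑ v, ψ (Matrix.single u v 1) * (MvPolynomial.eval y (α (ε.symm e) u v) *
          MvPolynomial.eval y (β (ε.symm e))) := by
      intro e
      rw [map_mul, hα']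
      beta_reduce
      rw [map_sum, Finset.sum_mul]
      apply Finset.sum_congr rfl
      intro u _
      rw [map_sum, Finset.sum_mul]
      apply Finset.sum_congr rfl
      intro v _
      rw [map_mul, MvPolynomial.eval_C, mul_assoc]
    rw [Finset.sum_congr rfl (fun e _ => h2 e), Finset.sum_comm]
    apply Finset.sum_congr rfl
    intro u _
    rw [Finset.sum_comm, map_sum]
    apply Finset.sum_congr rfl
    intro v _
    rw [map_smul, smul_eq_mul, ← Finset.mul_sum, mul_comm]
    congr 1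
    exact Equiv.sum_comp ε.symm (fun e => MvPolynomial.eval y (α e u v) *
      MvPolynomial.eval y (β e))
  · intro b hb c hc hne
    exact (hW α' hα'S b hb c (fun a ha => hc a (fun h => ha (Finset.mem_coe.mpr h))) hne).mono
      hcardD

end Pool.Agent.CMP
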