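import Mathlib
import Pool.Agent.Helper12_UO.LevelK
import Pool.Agent.Helper12_CMP.JSet
import Pool.Agent.Helper12_CMP.JetProg
import Pool.Agent.Helper12_CMP.Defs

set_option autoImplicit false

/-! All ranks of a program are attained at the values of a map whose Jacobian is onto somewhere. -/

namespace Pool.Agent.CMP

open Matrix Pool.Agent Pool.Agent.UO

theorem tC_succ (r k q h : ℕ) : tC r k q (h + 1) = tC r k q h + dC r k q := by
  unfold tC
  ring

section

variable {F : Type*} [Field F] {σ τ : Type*} [Fintype σ] [DecidableEq σ] [Fintype τ]
  [DecidableEq τ] {r : ℕ}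

/-- Attaining finitely many rank conditions together. -/
theorem common_rankJ [Infinite F] (A : KProg F σ r) (H : σ → MvPolynomial τ F) (c : τ → F)
    (t : ℕ) (hne : (JS H c t).Nonempty) {ι : Type*} (s : Finset ι)
    (i j κ : ι → ℕ) (h : ∀ a ∈ s, ∃ y ∈ JS H c t, κ a ≤ (A.P (i a) (j a) y).rank) :
    ∃ y ∈ JS H c t, ∀ a ∈ s, κ a ≤ (A.P (i a) (j a) y).rank := by
  classical
  choose! y0 hy0 hr0 using h
  have hcert : ∀ a, ∃ (U : Matrix (Fin (κ a)) (Fin r) F) (V : Matrix (Fin r) (Fin (κ a)) F),
      a ∈ s → U * A.P (i a) (j a) (y0 a) * V = 1 := by
    intro a
    by_cases ha : a ∈ s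
    · obtain ⟨U, V, h⟩ := exists_cert _ (hr0 a ha)
      exact ⟨U, V, fun _ => h⟩
    · exact ⟨0, 0, fun h => absurd h ha⟩
  choose U V hUV using hcert
  obtain ⟨y, hy, hy'⟩ := JS_common H c t hne s
    (f := fun a y => (U a * A.P (i a) (j a) y * V a).det)
    (fun a _ => (((IsPolyMat.const _).mul (A.P_poly _ _)).mul (IsPolyMat.const _)).det)
    (fun a ha => ⟨y0 a, hy0 a ha, by rw [hUV a ha, Matrix.det_one]; exact one_ne_zero⟩)
  exact ⟨y, hy, fun a ha => le_rank_of_cert _ (U a) (V a) (hy' a ha)⟩

/-- A base point attaining the maximal rank on all intervals inside `[lo, hi)`. -/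
theorem exists_baseJ [Infinite F] (A : KProg F σ r) (H : σ → MvPolynomial τ F) (c : τ → F)
    (t : ℕ) (hne : (JS H c t).Nonempty) (lo hi : ℕ) (h : ∀ i j, lo ≤ i → i ≤ j → j ≤ hi →
      ∃ y ∈ JS H c t, maxRank A i j ≤ (A.P i j y).rank) :
    ∃ b ∈ JS H c t, ∀ i j, lo ≤ i → i ≤ j → j ≤ hi →
      ∀ y, (A.P i j y).rank ≤ (A.P i j b).rank := by
  classical
  obtain ⟨b, hb, hr⟩ := common_rankJ A H c t hne
    ((Finset.range (hi + 1) ×ˢ Finset.range (hi + 1)).filter
      (fun a : ℕ × ℕ => lo ≤ a.1 ∧ a.1 ≤ a.2 ∧ a.2 ≤ hi)) Prod.fst Prod.snd
    (fun a => maxRank A a.1 a.2) (by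
      intro a ha
      rw [Finset.mem_filter] at ha
      exact h a.1 a.2 ha.2.1 ha.2.2.1 ha.2.2.2)
  refine ⟨b, hb, fun i j h1 h2 h3 y => (le_maxRank A i j y).trans ?_⟩
  have := hr (i, j) (by
    rw [Finset.mem_filter, Finset.mem_product, Finset.mem_range, Finset.mem_range]
    exact ⟨⟨by show i < hi + 1; omega, by show j < hi + 1; omega⟩, h1, h2, h3⟩)
  exact this

/-- A polynomial function of few variables which is not zero is nonzero somewhere on `JS`. -/
theorem JS_fun [Infinite F] (H : σ → MvPolynomial τ F) {c : τ → F} (hc : Function.Injective c)
    (t k : ℕ) (hne : (JS H c t).Nonempty) (M : Finset σ) (hM : M.card ≤ k)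
    {f : (σ → F) → F} (hf : IsPoly f)
    (hfM : ∀ y y' : σ → F, (∀ i ∈ M, y i = y' i) → f y = f y') (y0 : σ → F) (hy0 : f y0 ≠ 0) :
    ∃ y ∈ JS H c (t + k), f y ≠ 0 := by
  obtain ⟨p, hp, hpf⟩ := exists_supported hf (M : Set σ)
    (fun y y' h => hfM y y' fun i hi => h i (Finset.mem_coe.mpr hi))
  have hp0 : p ≠ 0 := by
    rintro rfl
    exact hy0 (by rw [hpf, map_zero])
  obtain ⟨y, hy, hy'⟩ := JS_few H hc t hne M p hp0 hp
  exact ⟨y, JS_mono H c (Nat.add_le_add_left hM t) hy, by rw [hpf]; exact hy'⟩

/-- All ranks of a program are attained on `JS`. -/
theorem levelsC [CharZero F] (A : KProg F σ r) (H : σ → MvPolynomial τ F) (c : τ → F)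
    (hc : Function.Injective c) (t0 : ℕ) (hne : (JS H c t0).Nonempty) (k q : ℕ)
    (hk : ∀ v lo hi, occ A.V v lo hi ≤ k) (hq : ∀ l, (A.V l).card ≤ q) :
    ∀ (h κ : ℕ), r ≤ κ + h → ∀ i j, i ≤ j → (∃ y, κ ≤ (A.P i j y).rank) →
      ∃ y ∈ JS H c (t0 + tC r k q h), κ ≤ (A.P i j y).rank := by
  classical
  have : Infinite F := inferInstance
  intro h
  induction h with
  | zero =>
    intro κ hκ i j hij ⟨y, hy⟩
    have hr : κ = r := by
      have : (A.P i j y).rank ≤ r := by simpa using Matrix.rank_le_card_width (A.P i j y)
      omega
    subst hr
    -- every layer is invertible at `y`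
    have hlay : ∀ l ∈ Finset.Ico i j, (A.T l y).det ≠ 0 := by
      intro l hl
      rw [Finset.mem_Ico] at hl
      apply det_of_rank
      have h1 := A.rank_mono y hl.1 (Nat.le_succ l) hl.2
      rw [show A.P l l.succ y = A.T l y from A.P_succ l y] at h1
      omega
    obtain ⟨y', hy', hd⟩ := JS_common H c (t0 + tC κ k q 0)
      (JS_mono' H c (Nat.le_add_right _ _) hne) (Finset.Ico i j)
      (f := fun l y => (A.T l y).det) (fun l _ => (A.poly l).det) (by
        intro l hl
        obtain ⟨y', hy', hd⟩ := JS_fun H hc t0 q hne (A.V l) (hq l)
          (f := fun y => (A.T l y).det) (A.poly l).det (fun y y' hyy => by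
            rw [A.dep l y y' hyy]) y (hlay l hl)
        exact ⟨y', JS_mono H c (by unfold tC; omega) hy', hd⟩)
    refine ⟨y', hy', ?_⟩
    have hdet : (A.P i j y').det ≠ 0 := by
      have e : (A.P i j y').det = seg (fun l => (A.T l y').det) i j :=
        map_seg (Matrix.detMonoidHom : Matrix (Fin κ) (Fin κ) F →* F) (fun l => A.T l y') i j
      rw [e]
      apply seg_induction (p := fun x => x ≠ 0) one_ne_zero (fun a b ha hb => mul_ne_zero ha hb)
      intro l h1 h2
      exact hd l (Finset.mem_Ico.mpr ⟨h1, h2⟩)
    rw [rank_of_det hdet]
  | succ h ih =>
    intro κ hκ i j hij hex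
    by_cases hκ' : r ≤ κ + h
    · obtain ⟨y, hy, hr⟩ := ih κ hκ' i j hij hex
      exact ⟨y, JS_mono H c (by rw [tC_succ]; omega) hy, hr⟩
    · have hκr : κ + h + 1 = r := by omega
      -- induction on the length
      have main : ∀ (len i j : ℕ), i ≤ j → j ≤ i + len → (∃ y, κ ≤ (A.P i j y).rank) →
          ∃ y ∈ JS H c (t0 + tC r k q (h + 1)), κ ≤ (A.P i j y).rank := by
        intro len
        induction len with
        | zero =>
          intro i j hij hlen _
          have : i = j := by omega
          subst this
          obtain ⟨y0, hy0⟩ := hne
          refine ⟨y0, JS_mono H c (Nat.le_add_right _ _) hy0, ?_⟩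
          rw [A.P_self, Matrix.rank_one]
          simp only [Fintype.card_fin]
          omega
        | succ len ihl =>
          intro i j hij hlen hex
          by_cases hbig : ∃ y, κ + 1 ≤ (A.P i j y).rank
          · obtain ⟨y, hy, hr⟩ := ih (κ + 1) (by omega) i j hij hbig
            exact ⟨y, JS_mono H c (by rw [tC_succ]; omega) hy, by omega⟩
          obtain ⟨y, hy⟩ := hex
          obtain ⟨U, V, hUV⟩ := exists_cert _ hy
          by_cases hshort : j ≤ i + 2
          · -- at most two layers
            obtain ⟨y', hy', hd⟩ := JS_fun H hc t0 (2 * q) hne ((Finset.Ico i j).biUnion A.V)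
              ((Finset.card_biUnion_le_card_mul _ _ q fun l _ => hq l).trans (by
                rw [Nat.card_Ico]
                exact Nat.mul_le_mul_right _ (by omega)))
              (f := fun y => (U * A.P i j y * V).det)
              (((IsPolyMat.const U).mul (A.P_poly _ _)).mul (IsPolyMat.const V)).det
              (fun y y' hyy => by
                rw [A.P_congr (fun l h1 h2 v hv => hyy v
                  (Finset.mem_biUnion.mpr ⟨l, Finset.mem_Ico.mpr ⟨h1, h2⟩, hv⟩))]) y (by
                rw [hUV, Matrix.det_one]
                exact one_ne_zero)
            refine ⟨y', JS_mono H c ?_ hy', le_rank_of_cert _ U V hd⟩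
            rw [tC_succ]
            unfold dC
            omega
          push Not at hshort
          have hP : ∀ y, A.P i j y = A.T i y * A.P (i + 1) (j - 1) y * A.T (j - 1) y := by
            intro y
            have e1 : A.T i y = A.P i (i + 1) y := (A.P_succ i y).symm
            have e2 : A.T (j - 1) y = A.P (j - 1) (j - 1 + 1) y := (A.P_succ (j - 1) y).symm
            rw [e1, e2, A.P_mul (by omega) (by omega), A.P_mul (by omega) (by omega)]
            congr 1
            omega
          have hP1 : ∀ y, A.P i (j - 1) y = A.T i y * A.P (i + 1) (j - 1) y := by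
            intro y
            have e1 : A.T i y = A.P i (i + 1) y := (A.P_succ i y).symm
            rw [e1, A.P_mul (by omega) (by omega)]
          have hP2 : ∀ y, A.P (i + 1) j y = A.P (i + 1) (j - 1) y * A.T (j - 1) y := by
            intro y
            have e2 : A.T (j - 1) y = A.P (j - 1) (j - 1 + 1) y := (A.P_succ (j - 1) y).symm
            rw [e2, A.P_mul (by omega) (by omega)]
            congr 1
            omega
          by_cases hint : ∃ y, κ + 1 ≤ (A.P (i + 1) (j - 1) y).rank
          · -- the interior has larger rank: use Lemma K
            obtain ⟨b, hbI, hbr⟩ := exists_baseJ A H c (t0 + tC r k q h)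
              (JS_mono' H c (Nat.le_add_right _ _) hne) (i + 1) (j - 1) (by
              intro i' j' h1 h2 h3
              apply ih
              · obtain ⟨y, hy⟩ := hint
                have g1 := A.rank_mono y h1 h2 h3
                have g2 := le_maxRank A i' j' y
                omega
              · exact h2
              · exact exists_maxRank A i' j')
            -- freeze the variables of the end layers
            let W : Finset σ := A.V i ∪ A.V (j - 1)
            obtain ⟨y2, hy2, hb2⟩ := exists_frozen A b y (i + 1) (j - 1) hbr W
              (f := fun y => (U * A.P i j y * V).det)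
              (((IsPolyMat.const U).mul (A.P_poly _ _)).mul (IsPolyMat.const V)).det (by
                show (U * A.P i j y * V).det ≠ 0
                rw [hUV, Matrix.det_one]
                exact one_ne_zero)
            let fr : (σ → F) → (σ → F) := fun y v => if v ∈ W then y2 v else y v
            have hfrpoly : ∀ v, IsPoly (fun y : σ → F => fr y v) := by
              intro v
              by_cases hv : v ∈ W
              · simpa only [fr, hv, ↓reduceIte] using UO.IsPoly.const (y2 v)
              · simpa only [fr, hv, ↓reduceIte] using UO.IsPoly.coord v
            let B : KProg F σ r :=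
              { T := fun l y => A.T l (fr y)
                V := A.V
                poly := fun l u v => (A.poly l u v).comp hfrpoly
                dep := by
                  intro l y y' hyy'
                  apply A.dep
                  intro v hv
                  show (if v ∈ W then y2 v else y v) = (if v ∈ W then y2 v else y' v)
                  split_ifs
                  · rfl
                  · exact hyy' v hv }
            have hBP : ∀ i' j' y, B.P i' j' y = A.P i' j' (fr y) := fun _ _ _ => rfl
            have hfr2 : fr y2 = y2 := by
              ext v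
              show (if v ∈ W then y2 v else y2 v) = y2 v
              split_ifs <;> rfl
            obtain ⟨S, y3, hSc, hy3, hdet⟩ := lemmaK B b (i + 1) (j - 1) (by omega)
              (fun i' j' h1 h2 h3 y => by
                rw [hBP, hBP]
                exact hb2 i' j' h1 h2 h3 (fr y))
              k q (fun v => hk v _ _) hq (kpow κ) (kpow_poly κ) (kpow_transpose κ)
              (detFun (U * A.T i y2) (A.T (j - 1) y2 * V)) ⟨y2, by
                rw [detFun_kpow, hBP, hfr2]
                have e : U * A.T i y2 * A.P (i + 1) (j - 1) y2 * (A.T (j - 1) y2 * V) =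
                    U * A.P i j y2 * V := by
                  rw [hP]
                  simp only [Matrix.mul_assoc]
                rw [e]
                exact hy2⟩
            rw [detFun_kpow, hBP] at hdet
            have hSW : (S ∪ W).card ≤ bS r k q := by
              have h1 : S.card ≤ kBs r k q := by
                refine hSc.le.trans ?_
                rw [Fintype.card_fun, Fintype.card_fin, Fintype.card_fin]
                unfold kBs
                exact Finset.single_le_sum (f := fun κ => kB r k q (r ^ κ))
                  (fun _ _ => Nat.zero_le _) (Finset.mem_range.mpr (by omega))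
              have h2 : W.card ≤ q + q := (Finset.card_union_le _ _).trans
                (Nat.add_le_add (hq _) (hq _))
              have h3 := Finset.card_union_le S W
              unfold bS
              omega
            obtain ⟨y4, hy4⟩ : ∃ y4, y4 = fr y3 := ⟨_, rfl⟩
            have hy4b : ∀ v, v ∉ S ∪ W → y4 v = b v := by
              intro v hv
              rw [Finset.mem_union, not_or] at hv
              rw [hy4]
              show (if v ∈ W then y2 v else y3 v) = b v
              rw [if_neg hv.2]
              exact hy3 v hv.1
            have hy4d : (U * A.P i j y4 * V).det ≠ 0 := by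
              rw [hy4, hP]
              have e1 : A.T i (fr y3) = A.T i y2 := by
                apply A.dep
                intro v hv
                show (if v ∈ W then y2 v else y3 v) = y2 v
                rw [if_pos (Finset.mem_union_left _ hv)]
              have e2 : A.T (j - 1) (fr y3) = A.T (j - 1) y2 := by
                apply A.dep
                intro v hv
                show (if v ∈ W then y2 v else y3 v) = y2 v
                rw [if_pos (Finset.mem_union_right _ hv)]
              rw [e1, e2]
              have e : U * (A.T i y2 * A.P (i + 1) (j - 1) (fr y3) * A.T (j - 1) y2) * V =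
                  U * A.T i y2 * A.P (i + 1) (j - 1) (fr y3) * (A.T (j - 1) y2 * V) := by
                simp only [Matrix.mul_assoc]
              rw [e]
              exact hdet
            -- the order at a generic point
            obtain ⟨G, Wp, M, hM, hWp0, hWpM, hG, hlow⟩ := jet_prog A (kpow κ) (kpow_poly κ)
              (S ∪ W) i j hij k q (oD r k q) (fun v => hk v _ _) hq (by
                unfold oD
                rw [Fintype.card_fun, Fintype.card_fin, Fintype.card_fin]
                have h1 : r ^ κ ≤ r ^ r := Nat.pow_le_pow_right (by omega) (by omega)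
                refine (Nat.pow_le_pow_left (Nat.succ_le_succ (Nat.mul_le_mul h1 h1)) _).trans ?_
                exact Nat.pow_le_pow_right (Nat.succ_pos _) (Nat.mul_le_mul_right k hSW))
              (detFun U V)
            have hGdet : ∀ y, MvPolynomial.eval y G = (U * A.P i j y * V).det := by
              intro y
              rw [hG, detFun_kpow]
            obtain ⟨t1, ht1⟩ : ∃ t1, t1 = t0 + tC r k q h + bS r k q * k * q := ⟨_, rfl⟩
            obtain ⟨b', hb', hb'2⟩ := JS_common H c t1
              (by rw [ht1]; exact JS_mono' H c (by omega) hne) (Finset.univ : Finset Bool)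
              (f := fun o y => if o = true then MvPolynomial.eval y Wp else
                MvPolynomial.eval (fun a => (y4 a - b a) + y a) G) (by
                intro o _
                cases o
                · simp only [Bool.false_eq_true, ↓reduceIte]
                  exact UO.IsPoly.comp (f := fun x => MvPolynomial.eval x G) ⟨G, fun _ => rfl⟩
                    (g := fun y a => (y4 a - b a) + y a)
                    (fun a => (UO.IsPoly.const (y4 a - b a)).add (UO.IsPoly.coord a))
                · simp only [↓reduceIte]
                  exact ⟨Wp, fun _ => rfl⟩) (by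
                intro o _
                cases o
                · refine ⟨b, by rw [ht1]; exact JS_mono H c (by omega) hbI, ?_⟩
                  simp only [Bool.false_eq_true, ↓reduceIte]
                  have e : (fun a => (y4 a - b a) + b a) = y4 := by
                    funext a
                    ring
                  rw [e, hGdet]
                  exact hy4d
                · obtain ⟨y', hy', hne'⟩ := JS_few H hc (t0 + tC r k q h)
                    (JS_mono' H c (by omega) hne) M Wp hWp0 hWpM
                  refine ⟨y', ?_, ?_⟩
                  · rw [ht1]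
                    refine JS_mono H c (Nat.add_le_add_left ?_ _) hy'
                    refine hM.trans ?_
                    exact Nat.mul_le_mul_right q (Nat.mul_le_mul_right k hSW)
                  · simp only [↓reduceIte]
                    exact hne')
            have g1 := hb'2 true (Finset.mem_univ _)
            have g2 := hb'2 false (Finset.mem_univ _)
            simp only [Bool.false_eq_true, ↓reduceIte] at g1 g2
            have hL := hlow b' g1 (fun a => y4 a - b a) (fun a ha => by
              rw [hy4b a ha, sub_self]) g2
            obtain ⟨y5, hy5, hy5'⟩ := JS_low H hc t1 (oD r k q) hb' G hL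
            refine ⟨y5, JS_mono H c ?_ hy5, ?_⟩
            · rw [ht1, tC_succ]
              unfold dC
              omega
            · rw [hGdet] at hy5'
              exact le_rank_of_cert _ U V hy5'
          · -- the interior has rank at most `κ`: Frobenius
            push Not at hint
            have hr1 : κ ≤ (A.P i (j - 1) y).rank := by
              rw [hP1]
              refine hy.trans ?_
              rw [hP]
              exact Matrix.rank_mul_le_left _ _
            have hr2 : κ ≤ (A.P (i + 1) j y).rank := by
              rw [hP2]
              refine hy.trans ?_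
              rw [hP, Matrix.mul_assoc]
              exact Matrix.rank_mul_le_right _ _
            obtain ⟨y1, hy1, hk1⟩ := ihl i (j - 1) (by omega) (by omega) ⟨y, hr1⟩
            obtain ⟨y2, hy2, hk2⟩ := ihl (i + 1) j (by omega) (by omega) ⟨y, hr2⟩
            obtain ⟨y3, hy3, hk3⟩ := common_rankJ A H c (t0 + tC r k q (h + 1))
              (JS_mono' H c (Nat.le_add_right _ _) hne) (Finset.univ : Finset Bool)
              (fun a => if a then i else i + 1) (fun a => if a then j - 1 else j) (fun _ => κ) (by
                intro a _
                cases a
                · exact ⟨y2, hy2, by simpa using hk2⟩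
                · exact ⟨y1, hy1, by simpa using hk1⟩)
            refine ⟨y3, hy3, ?_⟩
            have g1 := hk3 true (Finset.mem_univ _)
            have g2 := hk3 false (Finset.mem_univ _)
            simp only [↓reduceIte, Bool.false_eq_true] at g1 g2
            have g3 := frobenius (A.T i y3) (A.P (i + 1) (j - 1) y3) (A.T (j - 1) y3)
            have g4 := hint y3
            rw [hP1] at g1
            rw [hP2] at g2
            rw [hP]
            omega
      exact main (j - i) i j hij (by omega) hex

end

end Pool.Agent.CMP
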