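import Mathlib
import Pool.Agent.Helper12_UO.Assemble
import Pool.Agent.Helper12_CMP.LevelC

set_option autoImplicit false

/-! Programs as polynomials, and their derivatives. -/

namespace Pool.Agent.CMP

open Matrix Pool.Agent Pool.Agent.UO

section

variable {E : Type*} [Field E]

theorem mem_layerVars' {N r : ℕ} (M : Matrix (Fin r) (Fin r) (MvPolynomial (Fin N) E))
    (i : Fin N) : i ∈ CMP.layerVars M ↔ ∃ a b, i ∈ (M a b).vars := by
  unfold CMP.layerVars
  simp only [Finset.mem_biUnion, Finset.mem_univ, true_and]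

theorem eval_congr_vars' {σ : Type*} {f : MvPolynomial σ E} {x x' : σ → E}
    (h : ∀ i ∈ f.vars, x i = x' i) : MvPolynomial.eval x f = MvPolynomial.eval x' f :=
  MvPolynomial.eval₂Hom_congr' rfl (fun i hi _ => h i hi) rfl

/-- A nonzero program is nonzero somewhere on `JS`. -/
theorem program_hitJ [CharZero E] {n N r k q : ℕ} {H : Fin N → MvPolynomial (Fin n) E}
    {c : Fin n → E} (hc : Function.Injective c) (t0 : ℕ) (hne : (JS H c t0).Nonempty)
    {f : MvPolynomial (Fin N) E} (hf : CMP.IsProgram r k q f) (hf0 : f ≠ 0) :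
    ∃ y ∈ JS H c (t0 + tC r k q (r - 1)), MvPolynomial.eval y f ≠ 0 := by
  classical
  obtain ⟨m, M, u, v, hq, hk, hfe⟩ := hf
  obtain ⟨y0, hy0⟩ : ∃ y : Fin N → E, MvPolynomial.eval y f ≠ 0 := by
    by_contra hcon
    push Not at hcon
    exact hf0 (MvPolynomial.funext fun y => by rw [hcon y, map_zero])
  have hr : 0 < r := by
    by_contra h0
    have : r = 0 := by omega
    subst this
    apply hf0
    rw [hfe]
    simp [dotProduct]
  obtain ⟨o, ho⟩ : ∃ o : Fin r, o = ⟨0, hr⟩ := ⟨_, rfl⟩
  obtain ⟨T, hT⟩ : ∃ T : ℕ → (Fin N → E) → Matrix (Fin r) (Fin r) E, ∀ l y, T l y =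
      if l = 0 then Matrix.of (fun a b => if a = o then u b else 0) else
        if h : l - 1 < m then (MvPolynomial.eval y).mapMatrix (M ⟨l - 1, h⟩)
        else Matrix.of (fun a b => if b = o then v a else 0) := ⟨fun l y => _, fun l y => rfl⟩
  obtain ⟨V, hV⟩ : ∃ V : ℕ → Finset (Fin N), ∀ l, V l = if l = 0 then ∅ else
      if h : l - 1 < m then CMP.layerVars (M ⟨l - 1, h⟩) else ∅ :=
    ⟨fun l => _, fun l => rfl⟩
  let A : KProg E (Fin N) r :=
    { T := T
      V := V
      poly := by
        intro l
        have : T l = fun y => T l y := rfl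
        rw [this]
        by_cases h0 : l = 0
        · simp only [hT, h0, ↓reduceIte]
          exact IsPolyMat.const _
        · by_cases h : l - 1 < m
          · simp only [hT, h0, h, ↓reduceIte, ↓reduceDIte]
            exact fun a b => ⟨M ⟨l - 1, h⟩ a b, fun _ => rfl⟩
          · simp only [hT, h0, h, ↓reduceIte, ↓reduceDIte]
            exact IsPolyMat.const _
      dep := by
        intro l y y' hyy'
        by_cases h0 : l = 0
        · simp only [hT, h0, ↓reduceIte]
        · by_cases h : l - 1 < m
          · simp only [hV, h0, h, ↓reduceIte, ↓reduceDIte] at hyy'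
            simp only [hT, h0, h, ↓reduceIte, ↓reduceDIte]
            ext a b
            refine eval_congr_vars' fun i hi => ?_
            exact hyy' i ((mem_layerVars' _ _).mpr ⟨a, b, hi⟩)
          · simp only [hT, h0, h, ↓reduceIte, ↓reduceDIte] }
  have hAT0 : ∀ y, A.T 0 y = Matrix.of (fun a b => if a = o then u b else 0) := by
    intro y
    show T 0 y = _
    rw [hT, if_pos rfl]
  have hATl : ∀ (y : Fin N → E) (l : ℕ) (h : l < m), A.T (l + 1) y =
      (MvPolynomial.eval y).mapMatrix (M ⟨l, h⟩) := by
    intro y l h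
    show T (l + 1) y = _
    rw [hT, if_neg (Nat.succ_ne_zero l)]
    have h' : l + 1 - 1 < m := by omega
    rw [dif_pos h']
    rfl
  have hATm : ∀ y, A.T (m + 1) y = Matrix.of (fun a b => if b = o then v a else 0) := by
    intro y
    show T (m + 1) y = _
    rw [hT, if_neg (Nat.succ_ne_zero m), dif_neg (by omega)]
  have hmid : ∀ y : Fin N → E,
      A.P 1 (m + 1) y = (MvPolynomial.eval y).mapMatrix (List.ofFn M).prod := by
    intro y
    rw [map_list_prod, List.map_ofFn]
    show ((List.range' 1 (m + 1 - 1)).map fun k => A.T k y).prod = _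
    congr 1
    apply List.ext_getElem
    · simp
    · intro i h1 h2
      rw [List.length_ofFn] at h2
      simp only [List.getElem_map, List.getElem_range', List.getElem_ofFn, Function.comp_apply]
      rw [show 1 + 1 * i = i + 1 by ring]
      exact hATl y i h2
  have hval : ∀ y : Fin N → E, MvPolynomial.eval y f =
      u ⬝ᵥ ((MvPolynomial.eval y).mapMatrix (List.ofFn M).prod *ᵥ v) := by
    intro y
    rw [hfe]
    simp [dotProduct, Matrix.mulVec, map_sum, map_mul]
  have hP : ∀ y : Fin N → E, A.P 0 (m + 2) y = Matrix.of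
      (fun a b => if a = o then (if b = o then MvPolynomial.eval y f else 0) else 0) := by
    intro y
    rw [← A.P_mul (Nat.zero_le (m + 1)) (Nat.le_succ _) y,
      ← A.P_mul (Nat.zero_le 1) (show 1 ≤ m + 1 by omega) y]
    rw [show A.P 0 1 y = A.T 0 y from A.P_succ 0 y,
      show A.P (m + 1) (m + 2) y = A.T (m + 1) y from A.P_succ (m + 1) y, hmid, hAT0, hATm, hval]
    ext a b
    rw [Matrix.mul_assoc, Matrix.mul_apply, Matrix.of_apply]
    simp only [Matrix.mul_apply, Matrix.of_apply]
    by_cases ha : a = o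
    · by_cases hb : b = o
      · simp only [ha, hb, ↓reduceIte, dotProduct, Matrix.mulVec]
      · simp only [ha, hb, ↓reduceIte, mul_zero, Finset.sum_const_zero]
    · simp only [ha, ↓reduceIte, zero_mul, Finset.sum_const_zero]
  have hrank : ∀ y : Fin N → E, 1 ≤ (A.P 0 (m + 2) y).rank ↔ MvPolynomial.eval y f ≠ 0 := by
    intro y
    constructor
    · intro h h0
      have : A.P 0 (m + 2) y = 0 := by
        rw [hP, h0]
        ext a b
        simp
      rw [this, Matrix.rank_zero] at h
      omega
    · intro h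
      apply le_rank_of_cert _ (Matrix.of fun (_ : Fin 1) a => if a = o then (1 : E) else 0)
        (Matrix.of fun a (_ : Fin 1) => if a = o then (1 : E) else 0)
      rw [Matrix.det_fin_one, hP]
      simpa [Matrix.mul_apply] using h
  obtain ⟨y, hy, hy1⟩ := levelsC A H c hc t0 hne k q (by
      intro i lo hi
      refine le_trans ?_ (hk i)
      unfold occ
      show ((Finset.Ico lo hi).filter fun l => i ∈ V l).card ≤ _
      have hsub : ∀ l ∈ (Finset.Ico lo hi).filter (fun l => i ∈ V l), l ≠ 0 ∧
          ∃ h : l - 1 < m, i ∈ CMP.layerVars (M ⟨l - 1, h⟩) := by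
        intro l hl
        rw [Finset.mem_filter, hV] at hl
        by_cases h0 : l = 0
        · rw [if_pos h0] at hl
          exact absurd hl.2 (Finset.notMem_empty _)
        · rw [if_neg h0] at hl
          by_cases h : l - 1 < m
          · rw [dif_pos h] at hl
            exact ⟨h0, h, hl.2⟩
          · rw [dif_neg h] at hl
            exact absurd hl.2 (Finset.notMem_empty _)
      choose! g1 g2 g3 using hsub
      rcases Nat.eq_zero_or_pos m with hm | hm
      · have : (Finset.Ico lo hi).filter (fun l => i ∈ V l) = ∅ := by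
          rw [Finset.eq_empty_iff_forall_notMem]
          intro l hl
          have := g2 l hl
          omega
        rw [this]
        simp
      · apply Finset.card_le_card_of_injOn (fun l => if h : l - 1 < m then (⟨l - 1, h⟩ : Fin m) else
          ⟨0, hm⟩)
        · intro l hl
          have hl' := Finset.mem_coe.mp hl
          show (if h : l - 1 < m then (⟨l - 1, h⟩ : Fin m) else ⟨0, hm⟩) ∈ _
          rw [dif_pos (g2 l hl'), Finset.mem_coe, Finset.mem_filter]
          exact ⟨Finset.mem_univ _, g3 l hl'⟩
        · intro l hl l' hl' h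
          have hl1 := Finset.mem_coe.mp hl
          have hl2 := Finset.mem_coe.mp hl'
          have h' : (if h : l - 1 < m then (⟨l - 1, h⟩ : Fin m) else ⟨0, hm⟩) =
            (if h : l' - 1 < m then (⟨l' - 1, h⟩ : Fin m) else ⟨0, hm⟩) := h
          rw [dif_pos (g2 l hl1), dif_pos (g2 l' hl2), Fin.mk.injEq] at h'
          have e1 := g1 l hl1
          have e2 := g1 l' hl2
          omega) (by
      intro l
      show (V l).card ≤ q
      rw [hV]
      split_ifs with h0 h
      · simp
      · exact hq ⟨l - 1, h⟩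
      · simp) (r - 1) 1 (by omega) 0 (m + 2) (Nat.zero_le _) ⟨y0, (hrank y0).mpr hy0⟩
  exact ⟨y, hy, (hrank y).mp hy1⟩

/-- The derivative of a product of matrices in block form. -/
theorem block_prod {N r : ℕ} (i : Fin N)
    (l : List (Matrix (Fin r) (Fin r) (MvPolynomial (Fin N) E))) :
    (l.map fun M => Matrix.fromBlocks M (M.map (MvPolynomial.pderiv i)) 0 M).prod =
      Matrix.fromBlocks l.prod (l.prod.map (MvPolynomial.pderiv i)) 0 l.prod := by
  induction l with
  | nil =>
    rw [List.map_nil, List.prod_nil, List.prod_nil]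
    have e : (1 : Matrix (Fin r) (Fin r) (MvPolynomial (Fin N) E)).map (MvPolynomial.pderiv i) =
        0 := by
      ext1 a b
      rw [Matrix.map_apply, Matrix.one_apply, Matrix.zero_apply]
      split_ifs
      · exact MvPolynomial.pderiv_one
      · exact map_zero _
    rw [e, Matrix.fromBlocks_one]
  | cons M l ih =>
    rw [List.map_cons, List.prod_cons, ih, Matrix.fromBlocks_multiply, List.prod_cons]
    congr 1
    · rw [mul_zero, add_zero]
    · ext1 a b
      rw [Matrix.add_apply, Matrix.map_apply, Matrix.mul_apply, Matrix.mul_apply, Matrix.mul_apply,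
        map_sum, ← Finset.sum_add_distrib]
      apply Finset.sum_congr rfl
      intro j _
      rw [MvPolynomial.pderiv_mul, Matrix.map_apply, Matrix.map_apply]
      ring
    · rw [zero_mul, mul_zero, add_zero]
    · rw [zero_mul, zero_add]

theorem vars_pderiv_subset {N : ℕ} (i : Fin N) (p : MvPolynomial (Fin N) E) :
    (MvPolynomial.pderiv i p).vars ⊆ p.vars := by
  have h1 : p ∈ MvPolynomial.supported E ((p.vars : Finset (Fin N)) : Set (Fin N)) :=
    MvPolynomial.mem_supported_vars p
  have h2 := MvPolynomial.mem_supported.mp (pderiv_mem i h1)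
  exact Finset.coe_subset.mp h2

/-- The derivative of a program is a program of twice the width. -/
theorem program_pderiv {N r k q : ℕ} {f : MvPolynomial (Fin N) E}
    (hf : CMP.IsProgram r k q f) (i : Fin N) :
    CMP.IsProgram (r + r) k q (MvPolynomial.pderiv i f) := by
  classical
  obtain ⟨m, M, u, v, hq, hk, hfe⟩ := hf
  obtain ⟨ε, hε⟩ : ∃ ε : Fin r ⊕ Fin r ≃ Fin (r + r), ε = finSumFinEquiv := ⟨_, rfl⟩
  obtain ⟨B, hB⟩ : ∃ B : Fin m → Matrix (Fin r ⊕ Fin r) (Fin r ⊕ Fin r)
      (MvPolynomial (Fin N) E), B = fun l =>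
      Matrix.fromBlocks (M l) ((M l).map (MvPolynomial.pderiv i)) 0 (M l) := ⟨_, rfl⟩
  have hvars : ∀ l, CMP.layerVars ((B l).submatrix ε.symm ε.symm) ⊆ CMP.layerVars (M l) := by
    intro l j hj
    rw [mem_layerVars'] at hj ⊢
    obtain ⟨a, b, hab⟩ := hj
    rw [Matrix.submatrix_apply, hB] at hab
    generalize ε.symm a = a' at hab
    generalize ε.symm b = b' at hab
    rcases a' with a' | a' <;> rcases b' with b' | b'
    · exact ⟨a', b', hab⟩
    · exact ⟨a', b', vars_pderiv_subset i _ hab⟩
    · have h0 : (MvPolynomial.vars (0 : MvPolynomial (Fin N) E)) = ∅ := MvPolynomial.vars_0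
      have h1 : j ∈ (MvPolynomial.vars (0 : MvPolynomial (Fin N) E)) := hab
      rw [h0] at h1
      exact absurd h1 (Finset.notMem_empty _)
    · exact ⟨a', b', hab⟩
  refine ⟨m, fun l => (B l).submatrix ε.symm ε.symm, fun a => Sum.elim u (fun _ => 0) (ε.symm a),
    fun a => Sum.elim (fun _ => 0) v (ε.symm a), ?_, ?_, ?_⟩
  · intro l
    exact (Finset.card_le_card (hvars l)).trans (hq l)
  · intro j
    refine le_trans (Finset.card_le_card ?_) (hk j)
    intro l hl
    rw [Finset.mem_filter] at hl ⊢
    exact ⟨hl.1, hvars l hl.2⟩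
  · have hprod : (List.ofFn fun l => (B l).submatrix ε.symm ε.symm).prod =
        (Matrix.fromBlocks (List.ofFn M).prod
          ((List.ofFn M).prod.map (MvPolynomial.pderiv i)) 0 (List.ofFn M).prod).submatrix
            ε.symm ε.symm := by
      rw [← block_prod i (List.ofFn M), List.map_ofFn]
      have h1 : ∀ L : List (Matrix (Fin r ⊕ Fin r) (Fin r ⊕ Fin r) (MvPolynomial (Fin N) E)),
          (L.map fun X => X.submatrix ε.symm ε.symm).prod = L.prod.submatrix ε.symm ε.symm := by
        intro L
        induction L with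
        | nil =>
          rw [List.map_nil, List.prod_nil, List.prod_nil, Matrix.submatrix_one_equiv]
        | cons X L ih =>
          rw [List.map_cons, List.prod_cons, List.prod_cons, ih, Matrix.submatrix_mul_equiv]
      rw [← h1, List.map_ofFn, hB]
      rfl
    rw [hprod, hfe]
    obtain ⟨Q, hQ⟩ : ∃ Q, Q = (List.ofFn M).prod := ⟨_, rfl⟩
    rw [← hQ]
    have e1 : (fun a => MvPolynomial.C (u a)) ⬝ᵥ (Q *ᵥ fun a => MvPolynomial.C (v a)) =
        ∑ a, ∑ b, MvPolynomial.C (u a) * (Q a b * MvPolynomial.C (v b)) := by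
      unfold dotProduct
      apply Finset.sum_congr rfl
      intro a _
      rw [← Finset.mul_sum]
      rfl
    have e2 : (fun a => MvPolynomial.C (Sum.elim u (fun _ => (0 : E)) (ε.symm a))) ⬝ᵥ
        (((Matrix.fromBlocks Q (Q.map (MvPolynomial.pderiv i)) 0 Q).submatrix ε.symm ε.symm) *ᵥ
          fun a => MvPolynomial.C (Sum.elim (fun _ => (0 : E)) v (ε.symm a))) =
        ∑ a, ∑ b, MvPolynomial.C (u a) * (MvPolynomial.pderiv i (Q a b) * MvPolynomial.C (v b)) := by
      unfold dotProduct
      rw [← Equiv.sum_comp ε, Fintype.sum_sum_type]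
      have z2 : ∑ x : Fin r, MvPolynomial.C (Sum.elim u (fun _ => (0 : E))
          (ε.symm (ε (Sum.inr x)))) * (((Matrix.fromBlocks Q (Q.map (MvPolynomial.pderiv i)) 0 Q).submatrix
            ε.symm ε.symm) *ᵥ fun a => MvPolynomial.C (Sum.elim (fun _ => (0 : E)) v (ε.symm a)))
            (ε (Sum.inr x)) = (0 : MvPolynomial (Fin N) E) := by
        apply Finset.sum_eq_zero
        intro x _
        rw [Equiv.symm_apply_apply, Sum.elim_inr, map_zero, zero_mul]
      rw [z2, add_zero]
      apply Finset.sum_congr rfl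
      intro a _
      beta_reduce
      rw [Equiv.symm_apply_apply, Sum.elim_inl, ← Finset.mul_sum]
      congr 1
      unfold Matrix.mulVec dotProduct
      rw [← Equiv.sum_comp ε, Fintype.sum_sum_type]
      have z3 : ∑ x : Fin r, ((Matrix.fromBlocks Q (Q.map (MvPolynomial.pderiv i)) 0 Q).submatrix
            ε.symm ε.symm) (ε (Sum.inl a)) (ε (Sum.inl x)) *
            MvPolynomial.C (Sum.elim (fun _ => (0 : E)) v (ε.symm (ε (Sum.inl x)))) =
            (0 : MvPolynomial (Fin N) E) := by
        apply Finset.sum_eq_zero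
        intro x _
        rw [Equiv.symm_apply_apply, Sum.elim_inl, map_zero, mul_zero]
      rw [z3, zero_add]
      apply Finset.sum_congr rfl
      intro b _
      beta_reduce
      rw [Matrix.submatrix_apply, Equiv.symm_apply_apply, Equiv.symm_apply_apply, Sum.elim_inr,
        Matrix.fromBlocks_apply₁₂, Matrix.map_apply]
    rw [e1, e2, map_sum]
    apply Finset.sum_congr rfl
    intro a _
    rw [map_sum]
    apply Finset.sum_congr rfl
    intro b _
    rw [MvPolynomial.pderiv_C_mul, MvPolynomial.pderiv_mul, MvPolynomial.pderiv_C, mul_zero,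
      add_zero]

end

end Pool.Agent.CMP
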