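import Mathlib
import Pool.Agent.Helper12_CMP.Prog

set_option autoImplicit false

/-! Towers of programs. -/

namespace Pool.Agent.CMP

open Matrix Pool.Agent Pool.Agent.UO

section

variable {E : Type*} [Field E]

/-- The chain rule. -/
theorem chain {n N : ℕ} (h : Fin N → MvPolynomial (Fin n) E) (x : Fin n → E)
    (P : MvPolynomial (Fin N) E) (i : Fin n) :
    MvPolynomial.eval x (MvPolynomial.pderiv i (MvPolynomial.bind₁ h P)) =
      ∑ a, MvPolynomial.eval (fun a => MvPolynomial.eval x (h a)) (MvPolynomial.pderiv a P) *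
        MvPolynomial.eval x (MvPolynomial.pderiv i (h a)) := by
  induction P using MvPolynomial.induction_on with
  | C c =>
    rw [MvPolynomial.algHom_C, MvPolynomial.algebraMap_eq, MvPolynomial.pderiv_C, map_zero]
    symm
    apply Finset.sum_eq_zero
    intro a _
    rw [MvPolynomial.pderiv_C, map_zero, zero_mul]
  | add p q hp hq =>
    rw [map_add, map_add, map_add, hp, hq, ← Finset.sum_add_distrib]
    apply Finset.sum_congr rfl
    intro a _
    rw [map_add, map_add]
    ring
  | mul_X p b hp =>
    rw [map_mul, MvPolynomial.bind₁_X_right, MvPolynomial.pderiv_mul, map_add, map_mul, map_mul,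
      hp, eval_bind]
    have e2 : ∀ a, MvPolynomial.eval (fun a => MvPolynomial.eval x (h a))
        (MvPolynomial.pderiv a (p * MvPolynomial.X b)) *
        MvPolynomial.eval x (MvPolynomial.pderiv i (h a)) =
        MvPolynomial.eval (fun a => MvPolynomial.eval x (h a)) (MvPolynomial.pderiv a p) *
        MvPolynomial.eval x (MvPolynomial.pderiv i (h a)) * MvPolynomial.eval x (h b) +
        (if a = b then MvPolynomial.eval (fun a => MvPolynomial.eval x (h a)) p *
          MvPolynomial.eval x (MvPolynomial.pderiv i (h b)) else 0) := by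
      intro a
      rw [MvPolynomial.pderiv_mul, MvPolynomial.pderiv_X, map_add, map_mul, map_mul,
        MvPolynomial.eval_X]
      by_cases hl : a = b
      · subst hl
        rw [Pi.single_eq_same, if_pos rfl, map_one]
        ring
      · rw [Pi.single_eq_of_ne (Ne.symm hl), if_neg hl, map_zero]
        ring
    rw [Finset.sum_congr rfl (fun a _ => e2 a), Finset.sum_add_distrib, Finset.sum_ite_eq',
      if_pos (Finset.mem_univ _), ← Finset.sum_mul]

/-- A Jacobian matrix of full row rank is onto. -/
theorem onto_of_rank {n N : ℕ} (h : Fin N → MvPolynomial (Fin n) E) (x : Fin n → E)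
    (hr : (jacobian h x).rank = N) : Onto h x := by
  intro w
  have htop : LinearMap.range (jacobian h x).mulVecLin = ⊤ := by
    apply Submodule.eq_top_of_finrank_eq
    rw [Module.finrank_fintype_fun_eq_card, Fintype.card_fin]
    exact hr
  have hw : w ∈ LinearMap.range (jacobian h x).mulVecLin := by
    rw [htop]
    exact Submodule.mem_top
  obtain ⟨v, hv⟩ := hw
  refine ⟨v, fun a => ?_⟩
  rw [← hv]
  change _ = ∑ i, jacobian h x a i * v i
  apply Finset.sum_congr rfl
  intro i _
  rw [mul_comm]
  rfl

/-- Surjectivity of the Jacobian matrices of a composition. -/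
theorem onto_comp {n N M : ℕ} (h : Fin N → MvPolynomial (Fin n) E) (x : Fin n → E)
    (hx : Onto h x) (φ : Fin M → MvPolynomial (Fin N) E)
    (hφ : ∀ w : Fin M → E, ∃ v : Fin N → E, ∀ b, ∑ a, v a *
      MvPolynomial.eval (fun a => MvPolynomial.eval x (h a)) (MvPolynomial.pderiv a (φ b)) = w b) :
    Onto (fun b => MvPolynomial.bind₁ h (φ b)) x := by
  intro w
  obtain ⟨w', hw'⟩ := hφ w
  obtain ⟨v, hv⟩ := hx w'
  refine ⟨v, fun b => ?_⟩
  rw [← hw' b]
  have h1 : ∀ i, v i * MvPolynomial.eval x (MvPolynomial.pderiv i (MvPolynomial.bind₁ h (φ b))) =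
      ∑ a, v i * (MvPolynomial.eval (fun a => MvPolynomial.eval x (h a))
        (MvPolynomial.pderiv a (φ b)) * MvPolynomial.eval x (MvPolynomial.pderiv i (h a))) := by
    intro i
    rw [chain, Finset.mul_sum]
  rw [Finset.sum_congr rfl (fun i _ => h1 i), Finset.sum_comm]
  apply Finset.sum_congr rfl
  intro a _
  rw [← hv a, Finset.sum_mul]
  apply Finset.sum_congr rfl
  intro i _
  ring

/-- In characteristic zero a variable that occurs has a nonzero derivative. -/
theorem pderiv_ne_zero [CharZero E] {σ : Type*} (p : MvPolynomial σ E) (i : σ)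
    (hi : i ∈ p.vars) : MvPolynomial.pderiv i p ≠ 0 := by
  classical
  rw [MvPolynomial.mem_vars_iff_mem_support] at hi
  obtain ⟨d, hd, hid⟩ := hi
  intro h0
  have h1 := congrArg (MvPolynomial.coeff (d - Finsupp.single i 1)) h0
  rw [MvPolynomial.coeff_pderiv, MvPolynomial.coeff_zero] at h1
  have h2 : d - Finsupp.single i 1 + Finsupp.single i 1 = d := by
    apply tsub_add_cancel_of_le
    rw [Finsupp.single_le_iff]
    exact Nat.one_le_iff_ne_zero.mpr (Finsupp.mem_support_iff.mp hid)
  rw [h2] at h1
  rcases mul_eq_zero.mp h1 with h3 | h3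
  · exact MvPolynomial.mem_support_iff.mp hd h3
  · exact Nat.cast_add_one_ne_zero _ h3

/-- The set `JS` of a family of height `d` is not empty. -/
theorem family_JS [CharZero E] {n r k q t0 d N : ℕ} {h : Fin N → MvPolynomial (Fin n) E}
    (hh : Family n r k q t0 d h) {c : Fin n → E} (hc : Function.Injective c) :
    (JS h c (t0 + d * tC (r + r) k q (r + r - 1))).Nonempty := by
  classical
  have : Infinite E := inferInstance
  induction hh with
  | @base N h x S hS hx hr =>
    refine ⟨_, x, ?_, onto_of_rank h x hr, rfl⟩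
    exact Im_mono c (hS.trans (Nat.le_add_right _ _)) (Im_support hc S x hx)
  | @mix d N M h hh φ hφ ih =>
    obtain ⟨_, x, hx, ho, rfl⟩ := ih
    exact ⟨_, x, hx, onto_comp h x ho φ (onto_of_rank φ _ (hφ _)), rfl⟩
  | @prog d N M h hh P hP hne hd ih =>
    choose a ha using hne
    have hpd : ∀ b, MvPolynomial.pderiv (a b) (P b) ≠ 0 := fun b => pderiv_ne_zero _ _ (ha b)
    have hstep : t0 + (d + 1) * tC (r + r) k q (r + r - 1) =
        t0 + d * tC (r + r) k q (r + r - 1) + tC (r + r) k q (r + r - 1) := by ring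
    rw [hstep]
    obtain ⟨_, ⟨x, hx, ho, rfl⟩, hy⟩ := JS_common h c _
      (JS_mono' h c (Nat.le_add_right _ (tC (r + r) k q (r + r - 1))) ih)
      (Finset.univ : Finset (Fin M))
      (f := fun b y => MvPolynomial.eval y (MvPolynomial.pderiv (a b) (P b)))
      (fun b _ => ⟨_, fun _ => rfl⟩) (fun b _ =>
        program_hitJ hc _ ih (program_pderiv (hP b) (a b)) (hpd b))
    refine ⟨_, x, hx, onto_comp h x ho P ?_, rfl⟩
    intro w
    have hinj : ∀ b b', a b' = a b → b' = b := by
      intro b b' hbb
      by_contra hne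
      have h1 := Finset.disjoint_left.mp (hd b' b hne) (ha b')
      rw [hbb] at h1
      exact h1 (ha b)
    obtain ⟨w', hw'⟩ : ∃ w' : Fin M → E, w' = fun b => w b *
        (MvPolynomial.eval (fun a => MvPolynomial.eval x (h a))
          (MvPolynomial.pderiv (a b) (P b)))⁻¹ := ⟨_, rfl⟩
    refine ⟨fun j => ∑ b, if a b = j then w' b else 0, fun b => ?_⟩
    simp only [Finset.sum_mul]
    rw [Finset.sum_comm, Finset.sum_eq_single b]
    · rw [Finset.sum_eq_single (a b)]
      · rw [if_pos rfl, hw']
        exact inv_mul_cancel_right₀ (hy b (Finset.mem_univ b)) (w b)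
      · intro j _ hj
        rw [if_neg (Ne.symm hj), zero_mul]
      · intro h
        exact absurd (Finset.mem_univ _) h
    · intro b' _ hb'
      apply Finset.sum_eq_zero
      intro j _
      by_cases hj : a b' = j
      · have h1 : j ∉ (P b).vars := by
          rw [← hj]
          exact Finset.disjoint_left.mp (hd b' b hb') (ha b')
        rw [MvPolynomial.pderiv_eq_zero_of_notMem_vars h1, map_zero, mul_zero]
      · rw [if_neg hj, zero_mul]
    · intro h
      exact absurd (Finset.mem_univ _) h

/-- **The generator hits towers.** -/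
theorem tower_hit [CharZero E] {n r k q t0 d : ℕ} {f : MvPolynomial (Fin n) E}
    (hf : IsTower n r k q t0 d f) (hf0 : f ≠ 0) {c : Fin n → E} (hc : Function.Injective c) :
    ∃ x ∈ Im c (CMP.seedLength r k q t0 d), MvPolynomial.eval x f ≠ 0 := by
  obtain ⟨N, h, P, hh, hP, rfl⟩ := hf
  have hP0 : P ≠ 0 := by
    rintro rfl
    exact hf0 (map_zero _)
  obtain ⟨_, ⟨x, hx, _, rfl⟩, hy⟩ := program_hitJ hc _ (family_JS hh hc) hP hP0
  refine ⟨x, hx, ?_⟩
  rw [eval_bind]
  exact hy

end

end Pool.Agent.CMP
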