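import Mathlib
import Pool.Agent.Helper12_UO.Transfer
import Pool.Agent.Helper12_CMP.Tower

set_option autoImplicit false

/-! From infinite fields to small integer points. -/

namespace Pool.Agent.CMP

open MvPolynomial Pool.Agent Pool.Agent.UO

/-- The generator hits all members of a finite family of towers together. -/
theorem family_hitT {E : Type*} [Field E] [CharZero E] (n r k q t0 d t : ℕ)
    (ht : CMP.seedLength r k q t0 d ≤ t) (s : List (MvPolynomial (Fin n) E))
    (hs : ∀ f ∈ s, ∃ d' ≤ d, IsTower n r k q t0 d' f) (h0 : s.prod ≠ 0) :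
    ∃ w z : Fin t → E, eval (point n w z) (rename Fin.val s.prod) ≠ 0 := by
  classical
  have : Infinite E := inferInstance
  obtain ⟨y, ⟨w, z, rfl⟩, hy⟩ := Im_common (fun i : Fin n => ((i : ℕ) : E)) t s.toFinset
    (f := fun g y => eval y g) (fun g _ => ⟨g, fun _ => rfl⟩) (by
      intro g hg
      rw [List.mem_toFinset] at hg
      have hg0 : g ≠ 0 := by
        rintro rfl
        exact h0 (List.prod_eq_zero hg)
      obtain ⟨d', hd', hT⟩ := hs g hg
      obtain ⟨y, hy, hy'⟩ := tower_hit hT hg0 (c := fun i : Fin n => ((i : ℕ) : E))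
        (fun i j hij => Fin.ext (Nat.cast_injective hij))
      refine ⟨y, Im_mono _ (le_trans ?_ ht) hy, hy'⟩
      unfold CMP.seedLength
      have := Nat.mul_le_mul_right (tC (r + r) k q (r + r - 1)) hd'
      omega)
  refine ⟨w, z, ?_⟩
  rw [eval_rename, point_eq_ext]
  have e : (extZ (SV (fun i : Fin n => ((i : ℕ) : E)) w z)) ∘ (Fin.val : Fin n → ℕ) =
      SV (fun i : Fin n => ((i : ℕ) : E)) w z := by
    funext i
    change extZ _ (i : ℕ) = _
    unfold extZ
    rw [dif_pos i.2]
  rw [e, map_list_prod]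
  intro hz
  rw [List.prod_eq_zero_iff, List.mem_map] at hz
  obtain ⟨g, hg, hg0⟩ := hz
  exact hy g (List.mem_toFinset.mpr hg) hg0

/-- A small integer point on the generator where a factor does not vanish. -/
theorem int_hit_of {E : Type*} [Field E] [CharZero E] (n D t : ℕ)
    (P : MvPolynomial ℕ ℤ) (hD : P.totalDegree ≤ D) (Q : MvPolynomial ℕ E)
    (hQ : ∃ w z : Fin t → E, eval (point n w z) Q ≠ 0)
    (hdvd : map (Int.castRingHom E) P ∣ Q) :
    ∃ w z : Fin t → ℕ, (∀ j, w j ≤ n * D) ∧ (∀ j, z j ≤ n * D) ∧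
      eval (point n (fun j => (w j : ℤ)) (fun j => (z j : ℤ))) P ≠ 0 := by
  classical
  obtain ⟨w0, z0, h1⟩ := hQ
  obtain ⟨H, hH⟩ : ∃ H : MvPolynomial (Fin t ⊕ Fin t) ℤ, H = aeval
    (point n (fun j => (X (Sum.inl j) : MvPolynomial (Fin t ⊕ Fin t) ℤ))
      (fun j => X (Sum.inr j))) P := ⟨_, rfl⟩
  have heval : ∀ x : (Fin t ⊕ Fin t) → ℤ, eval x H =
      eval (point n (fun j => x (Sum.inl j)) (fun j => x (Sum.inr j))) P := by
    intro x
    rw [hH]
    have h3 : (eval x).comp (aeval (R := ℤ)
        (point n (fun j => (X (Sum.inl j) : MvPolynomial (Fin t ⊕ Fin t) ℤ))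
        (fun j => X (Sum.inr j)))).toRingHom =
        eval (point n (fun j => x (Sum.inl j)) (fun j => x (Sum.inr j))) := by
      apply MvPolynomial.ringHom_ext
      · intro a
        simp
      · intro i
        simp only [AlgHom.toRingHom_eq_coe, RingHom.coe_comp, RingHom.coe_coe,
          Function.comp_apply, aeval_X, eval_X]
        rw [point_map (eval x)]
        simp only [eval_X]
    exact RingHom.congr_fun h3 P
  have hHne : H ≠ 0 := by
    intro hH0
    apply h1
    obtain ⟨g, hg⟩ := hdvd
    rw [hg, map_mul]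
    have h3 : (eval (point n w0 z0)).comp (map (Int.castRingHom E)) =
        (eval₂Hom (Int.castRingHom E) (Sum.elim w0 z0)).comp (aeval (R := ℤ)
        (point n (fun j => (X (Sum.inl j) : MvPolynomial (Fin t ⊕ Fin t) ℤ))
        (fun j => X (Sum.inr j)))).toRingHom := by
      apply MvPolynomial.ringHom_ext
      · intro a
        simp
      · intro i
        simp only [AlgHom.toRingHom_eq_coe, RingHom.coe_comp, RingHom.coe_coe,
          Function.comp_apply, aeval_X, map_X, eval_X]
        rw [point_map (eval₂Hom (Int.castRingHom E) (Sum.elim w0 z0))]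
        simp only [coe_eval₂Hom, eval₂_X, Sum.elim_inl, Sum.elim_inr]
    have h4 := RingHom.congr_fun h3 P
    simp only [AlgHom.toRingHom_eq_coe, RingHom.coe_comp, RingHom.coe_coe,
      Function.comp_apply] at h4
    rw [h4, ← hH, hH0, map_zero, zero_mul]
  by_contra hcon
  push Not at hcon
  apply hHne
  apply eq_zero_of_eval_zero_at_prod_finset H
    (fun _ => (Finset.range (n * D + 1)).image (fun a : ℕ => (a : ℤ)))
  · intro i
    rw [Finset.card_image_of_injective _ Nat.cast_injective, Finset.card_range, hH]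
    exact Nat.lt_succ_of_le (degreeOf_aeval_le _ P n D i (fun j => degreeOf_point t n j i) hD)
  · intro x hx
    have hx' : ∀ i, ∃ a : ℕ, a ≤ n * D ∧ (a : ℤ) = x i := by
      intro i
      obtain ⟨a, ha, ha'⟩ := Finset.mem_image.mp (hx i)
      exact ⟨a, Nat.lt_succ_iff.mp (Finset.mem_range.mp ha), ha'⟩
    choose a ha ha' using hx'
    rw [heval]
    have := hcon (fun j => a (Sum.inl j)) (fun j => a (Sum.inr j)) (fun j => ha _) (fun j => ha _)
    simpa only [ha'] using this

end Pool.Agent.CMP
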